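import Pool.Agent.Run7.h90.Ham.Main

/-!
# The main induction
-/

set_option autoImplicit false

namespace Pool.Agent.Run7.h90.Ham

open Pointwise
open scoped commutatorElement

universe u

variable {G : Type u} [Group G]

section

variable {S : Set G} {N : Subgroup G} [N.Normal]

/-- An abelian quotient of `L` with kernel `M ⁅L, L⁆`, as a function on `G`. -/
lemma exists_char {L M : Subgroup G} (hML : M ≤ L) :
    ∃ (Q : Type u) (_ : CommGroup Q) (χ₀ : ↥L →* Q) (χ : G → Q),
      (∀ x (hx : x ∈ L), χ x = χ₀ ⟨x, hx⟩) ∧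
      (∀ x ∈ M, χ x = 1) ∧ (∀ x ∈ L, χ x = 1 → x ∈ M ⊔ ⁅L, L⁆) := by
  classical
  let K : Subgroup (Abelianization ↥L) := (M.subgroupOf L).map Abelianization.of
  let χ₀ : ↥L →* (Abelianization ↥L) ⧸ K := (QuotientGroup.mk' K).comp Abelianization.of
  refine ⟨Abelianization ↥L ⧸ K, inferInstance, χ₀, fun x => if h : x ∈ L then χ₀ ⟨x, h⟩ else 1,
    fun x hx => dif_pos hx, ?_, ?_⟩
  · intro x hx
    simp only [hML hx, dif_pos]
    show (QuotientGroup.mk' K) (Abelianization.of ⟨x, hML hx⟩) = 1
    refine (QuotientGroup.eq_one_iff _).2 ?_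
    exact ⟨⟨x, hML hx⟩, hx, rfl⟩
  · intro x hx h
    simp only [hx, dif_pos] at h
    have h1 : Abelianization.of (⟨x, hx⟩ : ↥L) ∈ K := (QuotientGroup.eq_one_iff _).1 h
    obtain ⟨m, hm, hmx⟩ := h1
    have h2 : m⁻¹ * (⟨x, hx⟩ : ↥L) ∈ commutator ↥L := by
      rw [← Abelianization.ker_of, MonoidHom.mem_ker, map_mul, map_inv, hmx, inv_mul_cancel]
    have h3 : (m : G)⁻¹ * x ∈ ⁅L, L⁆ := by
      have h4 : (commutator ↥L).map L.subtype = ⁅L, L⁆ := by
        rw [commutator_def, Subgroup.map_commutator, ← MonoidHom.range_eq_map, Subgroup.range_subtype]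
      rw [← h4]
      exact ⟨_, h2, rfl⟩
    have h5 : x = m * ((m : G)⁻¹ * x) := by group
    rw [h5]
    exact Subgroup.mul_mem _ (Subgroup.mem_sup_left hm) (Subgroup.mem_sup_right h3)

lemma main_step [Finite G] (hS : ∀ s ∈ S, s⁻¹ ∈ S) (hcl : ∀ x y z : G, ⁅⁅x, y⁆, z⁆ ∈ N)
    {L : Subgroup G} {F : Set G} (hF : F ⊆ S) (hL : Subgroup.closure F ⊔ N = L)
    (h2 : ∀ s ∈ F, ∃ a ∈ F, s ≠ a) (H : G → Subgroup G) (hH1 : ∀ a ∈ F, N ≤ H a)
    (hH2 : ∀ a ∈ F, a ∉ H a) (hH3 : ∀ a ∈ F, ∀ s ∈ F, s ≠ a → s ∈ H a)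
    (hH4 : ∀ a ∈ F, Subgroup.closure (insert a (H a : Set G)) = L)
    (hne : ∀ a ∈ F, (En S (H a)).Nonempty)
    (hgen : ∀ a ∈ F, Subgroup.closure (En S (H a)) ⊔ N = H a) :
    Subgroup.closure (En S L) ⊔ N = L := by
  classical
  have hNL : N ≤ L := by rw [← hL]; exact le_sup_right
  have hFL : F ⊆ L := by
    rw [← hL]
    exact fun x hx => Subgroup.mem_sup_left (Subgroup.subset_closure hx)
  obtain ⟨M, hM⟩ : ∃ M, M = Subgroup.closure (En S L) ⊔ N := ⟨_, rfl⟩
  rw [← hM]
  have hNM : N ≤ M := by rw [hM]; exact le_sup_right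
  have hML : M ≤ L := by
    rw [hM, sup_le_iff, Subgroup.closure_le]
    exact ⟨En_sub, hNL⟩
  have hEnM : ∀ x ∈ En S L, x ∈ M := by
    intro x hx
    rw [hM]
    exact Subgroup.mem_sup_left (Subgroup.subset_closure hx)
  apply le_antisymm hML
  apply frattini_two hcl hNM
  have hHL : ∀ a ∈ F, H a ≤ L := by
    intro a ha
    rw [← hH4 a ha]
    exact fun x hx => Subgroup.subset_closure (Set.mem_insert_of_mem _ hx)
  -- walks
  have hwalk : ∀ a ∈ F, ∃ v, Y (H a) (En S (H a)) {a, a⁻¹} (L : Set G) 1 v := by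
    intro a ha
    have := walk_step (N := N) hS hcl (hH1 a ha) (hH2 a ha) (hne a ha) (hgen a ha)
    rwa [hH4 a ha] at this
  have hpath : ∀ a ∈ F, ∀ v, Y (H a) (En S (H a)) {a, a⁻¹} (L : Set G) 1 v →
      ∀ e ∈ En S (H a), ∀ e' ∈ En S (H a), e * v * e' ∈ En S L := by
    intro a ha v hY e he e' he'
    have hA : ({a, a⁻¹} : Set G) ⊆ S := by
      intro s hs
      rcases hs with rfl | hs
      · exact hF ha
      · rw [Set.mem_singleton_iff] at hs
        rw [hs]; exact hS _ (hF ha)
    have h3 := (hY.path hA e he e' he').smul e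
    rw [subgroup_smul (hHL a ha (En_sub he)), one_mul, mul_inv_cancel, ← mul_assoc] at h3
    exact h3
  obtain ⟨Q, _, χ₀, χ, hχ₀, hχM, hχ⟩ := exists_char hML
  have hmul : ∀ x ∈ L, ∀ y ∈ L, χ (x * y) = χ x * χ y := by
    intro x hx y hy
    rw [hχ₀ x hx, hχ₀ y hy, hχ₀ _ (L.mul_mem hx hy), ← map_mul]
    rfl
  have hone : χ 1 = 1 := hχM 1 M.one_mem
  have hinv : ∀ x ∈ L, χ x⁻¹ = (χ x)⁻¹ := by
    intro x hx
    have := hmul x hx x⁻¹ (L.inv_mem hx)
    rw [mul_inv_cancel, hone] at this
    exact (eq_inv_of_mul_eq_one_right this.symm)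
  -- `χ` is constant on `En S (H a)`
  have hconst : ∀ a ∈ F, ∃ ε : Q, ε * ε = 1 ∧ ∀ e ∈ En S (H a), χ e = ε := by
    intro a ha
    obtain ⟨v, hv⟩ := hwalk a ha
    obtain ⟨e₀, he₀⟩ := hne a ha
    have hvL : v ∈ L := hv.mem_right
    have h4 : ∀ e ∈ En S (H a), χ e = χ e₀ := by
      intro e he
      have h5 := hχM _ (hEnM _ (hpath a ha v hv e₀ he₀ e he))
      have h6 := hχM _ (hEnM _ (hpath a ha v hv e₀ he₀ e₀ he₀))
      have he₀L := hHL a ha (En_sub he₀)
      have heL := hHL a ha (En_sub he)
      rw [hmul _ (L.mul_mem he₀L hvL) _ heL] at h5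
      rw [hmul _ (L.mul_mem he₀L hvL) _ he₀L] at h6
      rw [← h6] at h5
      exact mul_left_cancel h5
    refine ⟨χ e₀, ?_, h4⟩
    have h7 := h4 _ (En_inv hS he₀)
    rw [hinv _ (hHL a ha (En_sub he₀))] at h7
    nth_rewrite 1 [← h7]
    rw [inv_mul_cancel]
  -- the values of `χ` on `H a`
  have hval : ∀ a ∈ F, ∀ P : Subgroup Q, (∀ e ∈ En S (H a), χ e ∈ P) → ∀ x ∈ H a, χ x ∈ P := by
    intro a ha P hP x hx
    let K : Subgroup G :=
      { carrier := {x | x ∈ L ∧ χ x ∈ P}
        one_mem' := ⟨L.one_mem, by rw [hone]; exact P.one_mem⟩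
        mul_mem' := by
          rintro x y ⟨hx, hx'⟩ ⟨hy, hy'⟩
          exact ⟨L.mul_mem hx hy, by rw [hmul x hx y hy]; exact P.mul_mem hx' hy'⟩
        inv_mem' := by
          rintro x ⟨hx, hx'⟩
          exact ⟨L.inv_mem hx, by rw [hinv x hx]; exact P.inv_mem hx'⟩ }
    have hK : H a ≤ K := by
      rw [← hgen a ha, sup_le_iff, Subgroup.closure_le]
      constructor
      · intro e he
        exact ⟨hHL a ha (En_sub he), hP e he⟩
      · intro n hn
        exact ⟨hNL hn, by rw [hχM n (hNM hn)]; exact P.one_mem⟩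
    exact (hK hx).2
  -- squares
  have hsq : ∀ s ∈ F, χ s * χ s = 1 := by
    intro s hs
    obtain ⟨a, ha, hsa⟩ := h2 s hs
    obtain ⟨ε, hε, hεe⟩ := hconst a ha
    have h3 := hval a ha (Subgroup.zpowers ε) (fun e he => by
      rw [hεe e he]; exact Subgroup.mem_zpowers ε) s (hH3 a ha s hs hsa)
    obtain ⟨i, hi⟩ := Subgroup.mem_zpowers_iff.1 h3
    rw [← hi, ← mul_zpow, hε, one_zpow]
  -- all generators are in the kernel
  have hall : ∀ a ∈ F, χ a = 1 := by
    intro a ha
    obtain ⟨v, hv⟩ := hwalk a ha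
    obtain ⟨ε, hε, hεe⟩ := hconst a ha
    obtain ⟨e₀, he₀⟩ := hne a ha
    have haL := hFL ha
    have hζ := hsq a ha
    have hA : ({a, a⁻¹} : Set G) ⊆ L := by
      intro s hs
      rcases hs with rfl | hs
      · exact haL
      · rw [Set.mem_singleton_iff] at hs
        rw [hs]; exact L.inv_mem haL
    obtain ⟨n, hn1, hn2⟩ := hv.count χ hmul (fun e he => hHL a ha (En_sub he)) hA le_rfl hεe
      (ζ := χ a) (by
        intro s hs
        rcases hs with rfl | hs
        · rfl
        · rw [Set.mem_singleton_iff] at hs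
          rw [hs, hinv a haL]
          exact inv_eq_of_mul_eq_one_left hζ)
    have hvL : v ∈ L := hv.mem_right
    have he₀L := hHL a ha (En_sub he₀)
    have h5 := hχM _ (hEnM _ (hpath a ha v hv e₀ he₀ e₀ he₀))
    rw [hmul _ (L.mul_mem he₀L hvL) _ he₀L, hmul _ he₀L _ hvL, hεe e₀ he₀, hn2, hone, one_mul] at h5
    -- `ζ ^ (n+1) ε ^ n = 1`
    have h6 : χ a ^ (n + 1) * ε ^ n = 1 := by
      calc χ a ^ (n + 1) * ε ^ n = ε * (χ a ^ (n + 1) * ε ^ n) * ε := by
            rw [mul_comm ε, mul_assoc _ ε ε, hε, mul_one]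
        _ = 1 := h5
    rcases Nat.even_or_odd n with hn | hn
    · obtain ⟨k, rfl⟩ := hn
      have h7 : ε ^ (k + k) = 1 := by rw [pow_add, ← mul_pow, hε, one_pow]
      have h8 : χ a ^ (k + k) = 1 := by rw [pow_add, ← mul_pow, hζ, one_pow]
      rw [h7, mul_one, pow_succ, h8, one_mul] at h6
      exact h6
    · have hn' := hn
      obtain ⟨k, hk⟩ := hn
      have h7 : ε ^ n = ε := by
        rw [hk, pow_succ, two_mul, pow_add, ← mul_pow, hε, one_pow, one_mul]
      have h8 : χ a ^ (n + 1) = 1 := by
        rw [hk, show 2 * k + 1 + 1 = (k + 1) + (k + 1) by ring, pow_add, ← mul_pow, hζ, one_pow]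
      rw [h7, h8, one_mul] at h6
      -- `H a` is in the kernel
      have hker : ∀ x ∈ H a, χ x = 1 := by
        intro x hx
        have := hval a ha ⊥ (fun e he => by rw [hεe e he, h6]; exact Subgroup.mem_bot.2 rfl) x hx
        exact Subgroup.mem_bot.1 this
      by_contra hne1
      have hidx : ((H a).subgroupOf L).index = n + 2 := by
        have h9 := Subgroup.index_mul_card ((H a).subgroupOf L)
        have h10 : Nat.card ↥((H a).subgroupOf L) = Nat.card ↥(H a) :=
          Nat.card_congr (Subgroup.subgroupOfEquivOfLe (hHL a ha)).toEquiv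
        have h11 : Nat.card ↥L = (n + 2) * Nat.card ↥(H a) := by
          rw [← hn1, ← Nat.card_coe_set_eq]
          rfl
        rw [h10, h11] at h9
        exact Nat.eq_of_mul_eq_mul_right Nat.card_pos h9
      have hle : (H a).subgroupOf L ≤ χ₀.ker := by
        intro x hx
        rw [MonoidHom.mem_ker]
        have := hker x hx
        rw [hχ₀ x x.2] at this
        exact this
      have hdvd := Subgroup.index_dvd_of_le hle
      rw [hidx, Subgroup.index_ker] at hdvd
      have hmem : χ a ∈ χ₀.range := ⟨⟨a, haL⟩, (hχ₀ a haL).symm⟩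
      have hord : orderOf (χ a) = 2 := orderOf_eq_prime (by rw [pow_two]; exact hζ) hne1
      have h12 : 2 ∣ Nat.card χ₀.range := by
        rw [← hord]
        exact Subgroup.orderOf_dvd_natCard _ hmem
      have h13 := h12.trans hdvd
      omega
  rw [← hL, sup_le_iff, Subgroup.closure_le, hL]
  refine ⟨fun a ha => hχ a (hFL ha) (hall a ha), hNM.trans le_sup_left⟩

/-- The main induction. -/
theorem main_ind [Finite G] (hS : ∀ s ∈ S, s⁻¹ ∈ S) (hcl : ∀ x y z : G, ⁅⁅x, y⁆, z⁆ ∈ N)
    (hN : (En S N).Nonempty) : ∀ (n : ℕ) (F : Finset G), F.card = n → (F : Set G) ⊆ S →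
      (En S (Subgroup.closure (F : Set G) ⊔ N)).Nonempty ∧
        Subgroup.closure (En S (Subgroup.closure (F : Set G) ⊔ N)) ⊔ N =
          Subgroup.closure (F : Set G) ⊔ N := by
  classical
  intro n
  induction n with
  | zero =>
    intro F hF _
    rw [Finset.card_eq_zero] at hF
    subst hF
    rw [Finset.coe_empty, Subgroup.closure_empty, bot_sup_eq]
    refine ⟨hN, ?_⟩
    rw [sup_eq_right, Subgroup.closure_le]
    exact En_sub
  | succ n ih =>
    intro F hF hFS
    have hcard : ∀ a ∈ F, (F.erase a).card = n := fun a ha => by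
      rw [Finset.card_erase_of_mem ha, hF]; rfl
    have hsub : ∀ a ∈ F, ((F.erase a : Finset G) : Set G) ⊆ S := fun a _ x hx =>
      hFS (Finset.erase_subset _ _ hx)
    obtain ⟨L, hL⟩ : ∃ L, L = Subgroup.closure (F : Set G) ⊔ N := ⟨_, rfl⟩
    rw [← hL]
    -- the subgroups `H a`
    have hH4 : ∀ a ∈ F, Subgroup.closure
        (insert a ((Subgroup.closure ((F.erase a : Finset G) : Set G) ⊔ N : Subgroup G) : Set G)) = L := by
      intro a ha
      rw [hL]
      apply le_antisymm
      · rw [Subgroup.closure_le]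
        intro x hx
        rcases Set.mem_insert_iff.1 hx with rfl | hx
        · exact Subgroup.mem_sup_left (Subgroup.subset_closure ha)
        · refine (sup_le_sup_right (Subgroup.closure_mono ?_) N : _) hx
          exact Finset.coe_subset.2 (Finset.erase_subset _ _)
      · rw [sup_le_iff, Subgroup.closure_le]
        constructor
        · intro x hx
          by_cases hxa : x = a
          · rw [hxa]; exact Subgroup.subset_closure (Set.mem_insert _ _)
          · exact Subgroup.subset_closure (Set.mem_insert_of_mem _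
              (Subgroup.mem_sup_left (Subgroup.subset_closure
                (Finset.mem_coe.2 (Finset.mem_erase.2 ⟨hxa, hx⟩)))))
        · intro x hx
          exact Subgroup.subset_closure (Set.mem_insert_of_mem _ (Subgroup.mem_sup_right hx))
    by_cases hred : ∃ a ∈ F, a ∈ Subgroup.closure ((F.erase a : Finset G) : Set G) ⊔ N
    · obtain ⟨a, ha, haH⟩ := hred
      have h1 := ih (F.erase a) (hcard a ha) (hsub a ha)
      have h2 : Subgroup.closure ((F.erase a : Finset G) : Set G) ⊔ N = L := by
        rw [← hH4 a ha, Set.insert_eq_of_mem haH, Subgroup.closure_eq]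
      rwa [h2] at h1
    · push Not at hred
      obtain ⟨a₀, ha₀⟩ : F.Nonempty := by
        rw [← Finset.card_pos]; omega
      have hA : ∀ a ∈ F, ({a, a⁻¹} : Set G) ⊆ S := by
        intro a ha s hs
        rcases hs with rfl | hs
        · exact hFS ha
        · rw [Set.mem_singleton_iff] at hs
          rw [hs]; exact hS _ (hFS ha)
      have hpath : ∀ a ∈ F, ∀ v, Y (Subgroup.closure ((F.erase a : Finset G) : Set G) ⊔ N)
          (En S (Subgroup.closure ((F.erase a : Finset G) : Set G) ⊔ N)) {a, a⁻¹} (L : Set G) 1 v →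
          ∀ e ∈ En S (Subgroup.closure ((F.erase a : Finset G) : Set G) ⊔ N),
          ∀ e' ∈ En S (Subgroup.closure ((F.erase a : Finset G) : Set G) ⊔ N),
            e * v * e' ∈ En S L := by
        intro a ha v hY e he e' he'
        have h3 := (hY.path (hA a ha) e he e' he').smul e
        have heL : e ∈ L := by
          rw [← hH4 a ha]
          exact Subgroup.subset_closure (Set.mem_insert_of_mem _ (En_sub he))
        rw [subgroup_smul heL, one_mul, mul_inv_cancel, ← mul_assoc] at h3
        exact h3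
      constructor
      · have h1 := ih (F.erase a₀) (hcard a₀ ha₀) (hsub a₀ ha₀)
        obtain ⟨v, hv⟩ := walk_step (N := N) hS hcl le_sup_right (hred a₀ ha₀) h1.1 h1.2
        rw [hH4 a₀ ha₀] at hv
        obtain ⟨e, he⟩ := h1.1
        exact ⟨_, hpath a₀ ha₀ v hv e he e he⟩
      · by_cases hn0 : n = 0
        · -- one generator
          have hFa : F.erase a₀ = ∅ := by
            rw [← Finset.card_eq_zero, hcard a₀ ha₀, hn0]
          have hHN : Subgroup.closure ((F.erase a₀ : Finset G) : Set G) ⊔ N = N := by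
            rw [hFa, Finset.coe_empty, Subgroup.closure_empty, bot_sup_eq]
          have hr := hred a₀ ha₀
          have hh4 := hH4 a₀ ha₀
          have hp := hpath a₀ ha₀
          rw [hHN] at hr hh4 hp
          obtain ⟨v, hva, hv⟩ := walk_cyc (S := S) hr hN
          rw [hh4] at hv
          obtain ⟨e, he⟩ := hN
          have h3 := hp v hv e he e he
          have heN : e ∈ N := En_sub he
          apply le_antisymm
          · rw [sup_le_iff, Subgroup.closure_le, hL]
            refine ⟨?_, le_sup_right⟩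
            rw [← hL]; exact En_sub
          · rw [← hh4, Subgroup.closure_le]
            intro x hx
            rcases Set.mem_insert_iff.1 hx with rfl | hx
            · have h5 : x = (e * v * e)⁻¹ * e * (v * x) * (x⁻¹ * e * x) := by group
              have h6 : x⁻¹ * e * x ∈ N := by
                have := (inferInstance : N.Normal).conj_mem e heN x⁻¹
                simpa using this
              rw [hh4]
              have h7 : (e * v * e)⁻¹ * e * (v * x) * (x⁻¹ * e * x) ∈
                  Subgroup.closure (En S L) ⊔ N :=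
                Subgroup.mul_mem _ (Subgroup.mul_mem _ (Subgroup.mul_mem _
                (Subgroup.inv_mem _ (Subgroup.mem_sup_left (Subgroup.subset_closure h3)))
                (Subgroup.mem_sup_right heN)) (Subgroup.mem_sup_right hva))
                (Subgroup.mem_sup_right h6)
              rwa [← h5] at h7
            · exact Subgroup.mem_sup_right hx
        · -- at least two generators
          refine main_step (N := N) hS hcl (F := (F : Set G)) hFS hL.symm ?_
            (fun a => Subgroup.closure ((F.erase a : Finset G) : Set G) ⊔ N)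
            (fun a _ => le_sup_right) (fun a ha => hred a ha) ?_ (fun a ha => hH4 a ha)
            (fun a ha => (ih (F.erase a) (hcard a ha) (hsub a ha)).1)
            (fun a ha => (ih (F.erase a) (hcard a ha) (hsub a ha)).2)
          · intro s hs
            have h5 : 0 < (F.erase s).card := by rw [hcard s hs]; omega
            obtain ⟨a, ha⟩ := Finset.card_pos.1 h5
            exact ⟨a, Finset.mem_of_mem_erase ha, (Finset.ne_of_mem_erase ha).symm⟩
          · intro a ha s hs hsa
            exact Subgroup.mem_sup_left (Subgroup.subset_closure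
              (Finset.mem_coe.2 (Finset.mem_erase.2 ⟨hsa, hs⟩)))

/-- Hamiltonian paths of `G` from a path which visits exactly the elements of `N`, if `G / N` is
nilpotent of class at most two. -/
theorem exists_path [Finite G] (hS : ∀ s ∈ S, s⁻¹ ∈ S) (hgen : Subgroup.closure S = ⊤)
    (hcl : ∀ x y z : G, ⁅⁅x, y⁆, z⁆ ∈ N)
    (hN : ∃ p : List G, p.Nodup ∧ (∀ g, g ∈ p ↔ g ∈ N) ∧ p.IsChain (fun g h => g⁻¹ * h ∈ S)) :
    ∃ y, Pt S Set.univ 1 y := by
  classical
  have hNe : (En S N).Nonempty := by
    obtain ⟨p, p1, p2, p3⟩ := hN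
    have hp0 : p ≠ [] := by
      rintro rfl
      exact absurd ((p2 1).2 N.one_mem) (by simp)
    have h1 : Pt S (N : Set G) (p.head hp0) (p.getLast hp0) :=
      ⟨p, p1, p2, p3, List.head?_eq_some_head hp0, List.getLast?_eq_some_getLast hp0⟩
    have hx : p.head hp0 ∈ N := h1.mem_left
    have h2 := h1.smul (p.head hp0)⁻¹
    rw [subgroup_smul (N.inv_mem hx), inv_mul_cancel] at h2
    exact ⟨_, h2⟩
  have hfin : S.Finite := Set.toFinite S
  have h := (main_ind (N := N) hS hcl hNe hfin.toFinset.card hfin.toFinset rfl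
    (by rw [hfin.coe_toFinset])).1
  rw [hfin.coe_toFinset, hgen, top_sup_eq] at h
  obtain ⟨y, hy⟩ := h
  exact ⟨y, hy⟩

/-- From a Hamiltonian path to a listing sequence. -/
theorem listing [Finite G] (hne : S.Nonempty) {x y : G} (h : Pt S Set.univ x y) :
    ∃ a : Fin (Nat.card G) → G, (∀ i, a i ∈ S) ∧
      Function.Injective (fun k : Fin (Nat.card G) => ((List.ofFn a).take (k.val + 1)).prod) := by
  classical
  have : Fintype G := Fintype.ofFinite G
  obtain ⟨s, hs⟩ := hne
  obtain ⟨p, hnd, p2, p3, p4, -⟩ := (h.smul (s * x⁻¹))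
  rw [inv_mul_cancel_right] at p4
  have hlen : p.length = Nat.card G := by
    rw [← List.toFinset_card_of_nodup hnd, Nat.card_eq_fintype_card, ← Finset.card_univ]
    congr 1
    ext g
    simp only [List.mem_toFinset, Finset.mem_univ, iff_true]
    rw [p2, Set.smul_set_univ]
    trivial
  have h0 : p.getD 0 1 = s := by
    cases p with
    | nil => simp at p4
    | cons x p => simpa using p4
  let a : Fin (Nat.card G) → G := fun i =>
    if i.val = 0 then s else (p.getD (i.val - 1) 1)⁻¹ * p.getD i.val 1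
  have hprod : ∀ k, k < Nat.card G → ((List.ofFn a).take (k + 1)).prod = p.getD k 1 := by
    intro k
    induction k with
    | zero =>
      intro hk
      have hk' : 0 < (List.ofFn a).length := by rw [List.length_ofFn]; omega
      rw [List.take_succ_eq_append_getElem hk', List.prod_append, h0]
      simp [a]
    | succ k ih =>
      intro hk
      have hk' : k + 1 < (List.ofFn a).length := by rw [List.length_ofFn]; omega
      rw [List.take_succ_eq_append_getElem hk', List.prod_append, ih (by omega)]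
      simp only [List.getElem_ofFn, List.prod_cons, List.prod_nil, mul_one, a]
      rw [if_neg (by omega), Nat.add_sub_cancel]
      group
  refine ⟨a, fun i => ?_, fun i j hij => ?_⟩
  · by_cases hi : i.val = 0
    · simp only [a, hi, if_true]
      exact hs
    · simp only [a, hi, if_false]
      have hi2 : i.val < p.length := by rw [hlen]; exact i.isLt
      have h1 := List.isChain_iff_getElem.1 p3 (i.val - 1) (by omega)
      rw [List.getD_eq_getElem _ _ (by omega), List.getD_eq_getElem _ _ hi2]
      have e : i.val - 1 + 1 = i.val := by omega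
      simpa [e] using h1
  · simp only [] at hij
    rw [hprod _ i.isLt, hprod _ j.isLt, List.getD_eq_getElem _ _ (by rw [hlen]; exact i.isLt),
      List.getD_eq_getElem _ _ (by rw [hlen]; exact j.isLt)] at hij
    exact Fin.ext ((List.Nodup.getElem_inj_iff hnd).1 hij)

end

end Pool.Agent.Run7.h90.Ham
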