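import Pool.Agent.Run7.h90.Ham.Walk

/-!
# Coset walks in groups of class two

`exists_walk`: let `E = E⁻¹` be a nonempty finite subset of the subgroup `H`, let `a ∉ H`, let
`e a e⁻¹ a⁻¹` be central for all `e ∈ E`. Then there is a coset walk with the factors `e ∈ E` and
`s = a` or `s = a⁻¹` which meets exactly the cosets of `H` contained in `B H`, where `B` is generated by
`a` and the commutators `e a e⁻¹ a⁻¹`.
-/

set_option autoImplicit false

namespace Pool.Agent.Run7.h90.Ham

open Pointwise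

variable {G : Type*} [Group G]

/-- The union of the cosets `b H`, `b ∈ B`. -/
def BH (B H : Subgroup G) : Set G := {x | ∃ b ∈ B, b⁻¹ * x ∈ H}

lemma mem_BH {B H : Subgroup G} {x : G} : x ∈ BH B H ↔ ∃ b ∈ B, b⁻¹ * x ∈ H := Iff.rfl

lemma BH_right {B H : Subgroup G} {x k : G} (hx : x ∈ BH B H) (hk : k ∈ H) : x * k ∈ BH B H := by
  obtain ⟨b, hb, hx⟩ := hx
  exact ⟨b, hb, by rw [← mul_assoc]; exact H.mul_mem hx hk⟩

lemma BH_left {B H : Subgroup G} {x b : G} (hx : x ∈ BH B H) (hb : b ∈ B) : b * x ∈ BH B H := by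
  obtain ⟨c, hc, hx⟩ := hx
  exact ⟨b * c, B.mul_mem hb hc, by simpa only [mul_inv_rev, mul_assoc, inv_mul_cancel_left] using hx⟩

lemma one_mem_BH {B H : Subgroup G} : (1 : G) ∈ BH B H := ⟨1, B.one_mem, by simp [H.one_mem]⟩

/-- The stabilizer of a set under left multiplication. -/
abbrev St (D : Set G) : Subgroup G := MulAction.stabilizer G D

lemma mem_St_of {D : Set G} {g : G} (h1 : ∀ x ∈ D, g * x ∈ D) (h2 : ∀ x ∈ D, g⁻¹ * x ∈ D) :
    g ∈ St D := by
  rw [MulAction.mem_stabilizer_iff]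
  ext x
  rw [Set.mem_smul_set_iff_inv_smul_mem, smul_eq_mul]
  constructor
  · intro hx
    simpa using h1 _ hx
  · intro hx
    exact h2 _ hx

lemma St_mul {D : Set G} {g x : G} (hg : g ∈ St D) (hx : x ∈ D) : g * x ∈ D := by
  rw [MulAction.mem_stabilizer_iff] at hg
  rw [← hg]
  exact Set.smul_mem_smul_set hx

lemma le_St {B H : Subgroup G} : B ≤ St (BH B H) := fun _ hb =>
  mem_St_of (fun _ hx => BH_left hx hb) (fun _ hx => BH_left hx (B.inv_mem hb))

/-- `B H ⊆ D` if `B` stabilizes `D ∋ 1` and `D` is a union of cosets of `H`. -/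
lemma BH_subset {B H : Subgroup G} {D : Set G} (h1 : (1 : G) ∈ D) (hB : B ≤ St D)
    (hr : ∀ x ∈ D, ∀ k ∈ H, x * k ∈ D) : BH B H ⊆ D := by
  rintro x ⟨b, hb, hx⟩
  have h2 := hr _ (St_mul (hB hb) h1) _ hx
  simpa using h2

section Abel

variable {B H : Subgroup G} {x : G}

/-- Decomposition of `⟨B, x⟩ H` into translates of `B H`. -/
lemma exists_period (U : Subgroup G) (hU : ∀ y ∈ U, ∀ z ∈ U, y * z = z * y) (hB : B ≤ U)
    (hx : x ∈ U) (hfin : IsOfFinOrder x) :
    ∃ q : ℕ, (∀ i, 0 < i → i < q + 1 → Disjoint (BH B H) (x ^ i • BH B H)) ∧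
      {y | ∃ i < q + 1, y ∈ x ^ i • BH B H} = BH (B ⊔ Subgroup.zpowers x) H ∧
      (∀ i, 0 < i → i < q + 1 → x ^ i ∉ BH B H) ∧ x ^ (q + 1) ∈ BH B H := by
  classical
  have hex : ∃ q : ℕ, x ^ (q + 1) ∈ BH B H := by
    refine ⟨orderOf x - 1, ?_⟩
    have h0 := hfin.orderOf_pos
    have : orderOf x - 1 + 1 = orderOf x := by omega
    rw [this, pow_orderOf_eq_one]
    exact one_mem_BH
  refine ⟨Nat.find hex, ?_, ?_, ?_, Nat.find_spec hex⟩
  · intro i hi hi'
    have hmin := Nat.find_min hex (m := i - 1) (by omega)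
    rw [Nat.sub_add_cancel hi] at hmin
    rw [Set.disjoint_left]
    rintro y ⟨b, hb, hy⟩ hy'
    rw [Set.mem_smul_set_iff_inv_smul_mem, smul_eq_mul] at hy'
    obtain ⟨c, hc, hy'⟩ := hy'
    apply hmin
    -- `b⁻¹ x ^ i c ∈ H`
    have h1 : b⁻¹ * x ^ i * c ∈ H := by
      have := H.mul_mem hy (H.inv_mem hy')
      convert this using 1
      group
    have h2 : b⁻¹ * x ^ i * c = (b * c⁻¹)⁻¹ * x ^ i := by
      have hbU := U.inv_mem (hB hb)
      have hcU := hB hc
      have hxU := U.pow_mem hx i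
      calc b⁻¹ * x ^ i * c = (b⁻¹ * x ^ i) * c := rfl
        _ = c * (b⁻¹ * x ^ i) := hU _ (U.mul_mem hbU hxU) _ hcU
        _ = (b * c⁻¹)⁻¹ * x ^ i := by group
    rw [h2] at h1
    exact ⟨b * c⁻¹, B.mul_mem hb (B.inv_mem hc), h1⟩
  · obtain ⟨b₀, hb₀, hh⟩ := Nat.find_spec hex
    set q := Nat.find hex with hq
    set h₀ := b₀⁻¹ * x ^ (q + 1) with hh₀
    have hbU := hB hb₀
    have hh₀U : h₀ ∈ U := U.mul_mem (U.inv_mem hbU) (U.pow_mem hx _)
    have hxq : x ^ (q + 1) = b₀ * h₀ := by rw [hh₀]; group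
    apply Set.Subset.antisymm
    · rintro y ⟨i, hi, hy⟩
      rw [Set.mem_smul_set_iff_inv_smul_mem, smul_eq_mul] at hy
      obtain ⟨c, hc, hy⟩ := hy
      refine ⟨x ^ i * c, ?_, ?_⟩
      · exact Subgroup.mul_mem _ (Subgroup.mem_sup_right (Subgroup.pow_mem _
          (Subgroup.mem_zpowers x) i)) (Subgroup.mem_sup_left hc)
      · convert hy using 1
        group
    · apply BH_subset
      · exact ⟨0, by omega, by simpa using one_mem_BH⟩
      · -- the stabilizer contains `B` and `x`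
        have hstab : ∀ y ∈ {y | ∃ i < q + 1, y ∈ x ^ i • BH B H},
            ∀ b ∈ B, b * y ∈ {y | ∃ i < q + 1, y ∈ x ^ i • BH B H} := by
          rintro y ⟨i, hi, hy⟩ b hb
          refine ⟨i, hi, ?_⟩
          rw [Set.mem_smul_set_iff_inv_smul_mem, smul_eq_mul] at hy ⊢
          have : (x ^ i)⁻¹ * (b * y) = b * ((x ^ i)⁻¹ * y) := by
            rw [← mul_assoc, ← mul_assoc, hU _ (U.inv_mem (U.pow_mem hx i)) _ (hB hb)]
          rw [this]
          exact BH_left hy hb
        rw [sup_le_iff]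
        constructor
        · intro b hb
          exact mem_St_of (fun y hy => hstab y hy b hb) (fun y hy => hstab y hy _ (B.inv_mem hb))
        · rw [Subgroup.zpowers_le]
          -- `x ^ (q+1)` acts on `B H` as the identity
          have hper : ∀ y ∈ BH B H, (x ^ (q + 1)) * y ∈ BH B H := by
            rintro y ⟨c, hc, hy⟩
            refine ⟨b₀ * c, B.mul_mem hb₀ hc, ?_⟩
            have : (b₀ * c)⁻¹ * (x ^ (q + 1) * y) = h₀ * (c⁻¹ * y) := by
              rw [hxq]
              have h3 : c⁻¹ * h₀ = h₀ * c⁻¹ := hU _ (U.inv_mem (hB hc)) _ hh₀U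
              calc (b₀ * c)⁻¹ * (b₀ * h₀ * y) = (c⁻¹ * h₀) * y := by group
                _ = _ := by rw [h3]; group
            rw [this]
            exact H.mul_mem hh hy
          have hper' : ∀ y ∈ BH B H, (x ^ (q + 1))⁻¹ * y ∈ BH B H := by
            rintro y ⟨c, hc, hy⟩
            refine ⟨b₀⁻¹ * c, B.mul_mem (B.inv_mem hb₀) hc, ?_⟩
            have : (b₀⁻¹ * c)⁻¹ * ((x ^ (q + 1))⁻¹ * y) = h₀⁻¹ * (c⁻¹ * y) := by
              rw [hxq]
              have h4 : h₀⁻¹ * b₀⁻¹ = b₀⁻¹ * h₀⁻¹ := hU _ (U.inv_mem hh₀U) _ (U.inv_mem hbU)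
              have h3 : c⁻¹ * h₀⁻¹ = h₀⁻¹ * c⁻¹ := hU _ (U.inv_mem (hB hc)) _ (U.inv_mem hh₀U)
              calc (b₀⁻¹ * c)⁻¹ * ((b₀ * h₀)⁻¹ * y) = c⁻¹ * b₀ * (h₀⁻¹ * b₀⁻¹) * y := by group
                _ = (c⁻¹ * h₀⁻¹) * y := by rw [h4]; group
                _ = _ := by rw [h3]; group
            rw [this]
            exact H.mul_mem (H.inv_mem hh) hy
          apply mem_St_of
          · rintro y ⟨i, hi, hy⟩
            rw [Set.mem_smul_set_iff_inv_smul_mem, smul_eq_mul] at hy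
            by_cases hi' : i + 1 < q + 1
            · refine ⟨i + 1, hi', ?_⟩
              rw [Set.mem_smul_set_iff_inv_smul_mem, smul_eq_mul]
              convert hy using 1
              rw [pow_succ]
              have : x * x ^ i = x ^ i * x := (Commute.self_pow x i).eq
              rw [← mul_assoc, mul_inv_rev]
              have h5 : x⁻¹ * (x ^ i)⁻¹ * x = (x ^ i)⁻¹ := by
                have h6 : x⁻¹ * (x ^ i)⁻¹ = (x ^ i)⁻¹ * x⁻¹ := by
                  rw [← mul_inv_rev, ← mul_inv_rev, this]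
                rw [h6]; group
              rw [h5]
            · have hiq : i = q := by omega
              subst hiq
              refine ⟨0, by omega, ?_⟩
              rw [pow_zero, one_smul]
              have := hper _ hy
              convert this using 1
              have h7 : x ^ (q + 1) = x * x ^ q := by rw [pow_succ']
              rw [h7]; group
          · rintro y ⟨i, hi, hy⟩
            rw [Set.mem_smul_set_iff_inv_smul_mem, smul_eq_mul] at hy
            by_cases hi' : i = 0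
            · subst hi'
              refine ⟨q, by omega, ?_⟩
              rw [pow_zero, inv_one, one_mul] at hy
              rw [Set.mem_smul_set_iff_inv_smul_mem, smul_eq_mul]
              have := hper' _ hy
              convert this using 1
              rw [pow_succ']; group
            · refine ⟨i - 1, by omega, ?_⟩
              rw [Set.mem_smul_set_iff_inv_smul_mem, smul_eq_mul]
              convert hy using 1
              have h7 : x ^ i = x * x ^ (i - 1) := by
                rw [← pow_succ']; congr 1; omega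
              rw [h7]; group
      · rintro y ⟨i, hi, hy⟩ k hk
        refine ⟨i, hi, ?_⟩
        rw [Set.mem_smul_set_iff_inv_smul_mem, smul_eq_mul] at hy ⊢
        rw [← mul_assoc]
        exact BH_right hy hk
  · intro i hi hi'
    have hmin := Nat.find_min hex (m := i - 1) (by omega)
    rwa [Nat.sub_add_cancel hi] at hmin

end Abel

section ClassTwo

variable {H : Subgroup G}

/-- If `e a e⁻¹ a⁻¹ ∈ C` and `C` is central, then `e` stabilizes `⟨a, C⟩ H`. -/
lemma e_mem_St {C : Subgroup G} (hC : C ≤ Subgroup.center G) {e a : G} (he : e ∈ H)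
    (h : e * a * e⁻¹ * a⁻¹ ∈ C) : e ∈ St (BH (Subgroup.zpowers a ⊔ C) H) := by
  have key : ∀ (e : G), e ∈ H → e * a * e⁻¹ * a⁻¹ ∈ C →
      ∀ x ∈ BH (Subgroup.zpowers a ⊔ C) H, e * x ∈ BH (Subgroup.zpowers a ⊔ C) H := by
    intro e he h x hx
    obtain ⟨b, hb, hx⟩ := hx
    -- `e b e⁻¹ ∈ ⟨a, C⟩`
    have h1 : e * b * e⁻¹ ∈ Subgroup.zpowers a ⊔ C := by
      have : Subgroup.zpowers a ⊔ C ≤ (Subgroup.zpowers a ⊔ C).comap (MulAut.conj e).toMonoidHom := by
        rw [sup_le_iff]
        constructor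
        · rw [Subgroup.zpowers_le, Subgroup.mem_comap]
          have h2 : (MulAut.conj e).toMonoidHom a = (e * a * e⁻¹ * a⁻¹) * a := by
            simp
          rw [h2]
          exact Subgroup.mul_mem _ (Subgroup.mem_sup_right h)
            (Subgroup.mem_sup_left (Subgroup.mem_zpowers a))
        · intro c hc
          rw [Subgroup.mem_comap]
          have h2 : (MulAut.conj e).toMonoidHom c = c := by
            have := Subgroup.mem_center_iff.1 (hC hc) e
            simp [this]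
          rw [h2]
          exact Subgroup.mem_sup_right hc
      exact this hb
    refine ⟨e * b * e⁻¹, h1, ?_⟩
    have : (e * b * e⁻¹)⁻¹ * (e * x) = e * (b⁻¹ * x) := by group
    rw [this]
    exact H.mul_mem he hx
  refine mem_St_of (key e he h) (key e⁻¹ (H.inv_mem he) ?_)
  -- `e⁻¹ a e a⁻¹ = (e a e⁻¹ a⁻¹)⁻¹`
  have hc := Subgroup.mem_center_iff.1 (hC h)
  have : e⁻¹ * a * e⁻¹⁻¹ * a⁻¹ = (e * a * e⁻¹ * a⁻¹)⁻¹ := by
    have h3 := hc (e⁻¹)
    -- e⁻¹ * (e a e⁻¹ a⁻¹) = (e a e⁻¹ a⁻¹) * e⁻¹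
    have h4 : a * e⁻¹ * a⁻¹ = e * a * e⁻¹ * a⁻¹ * e⁻¹ := by
      rw [← h3]; group
    have h5 : a * e * a⁻¹ = e * (e * a * e⁻¹ * a⁻¹)⁻¹ := by
      have h6 := congrArg (fun z => z⁻¹) h4
      simp only [mul_inv_rev, inv_inv] at h6
      calc a * e * a⁻¹ = a * (e * a⁻¹) := by group
        _ = _ := by rw [h6]; group
    have h7 : e⁻¹ * (a * e * a⁻¹) = (e * a * e⁻¹ * a⁻¹)⁻¹ := by rw [h5]; group
    rw [← h7]; group
  rw [this]
  exact C.inv_mem h

variable {E : Set G} {a : G}

/-- A row: the cosets `α ^ i H`, `α = e a`. -/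
lemma row {e : G} (he : e ∈ H) (heE : e ∈ E) {A : Set G} (haA : a ∈ A) {m : ℕ}
    (hm : ∀ i, 0 < i → i < m + 2 → (e * a) ^ i ∉ H) :
    Y H E A {y | ∃ i < m + 2, y ∈ (e * a) ^ i • (H : Set G)} e ((e * a) ^ (m + 1)) := by
  have haH : a ∉ H := by
    intro h
    exact hm 1 (by omega) (by omega) (by rw [pow_one]; exact H.mul_mem he h)
  induction m with
  | zero =>
    have h := Y.two (H := H) (E := E) (A := A) e a haA haH
    convert h using 1
    · ext y
      simp only [Set.mem_ofPred_eq, Set.mem_union]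
      constructor
      · rintro ⟨i, hi, hy⟩
        interval_cases i
        · left
          rw [pow_zero, one_smul] at hy
          rw [mem_coset]
          exact H.mul_mem (H.inv_mem he) hy
        · right
          simpa using hy
      · rintro (hy | hy)
        · refine ⟨0, by omega, ?_⟩
          rw [mem_coset] at hy
          rw [pow_zero, one_smul]
          have := H.mul_mem he hy
          simpa using this
        · exact ⟨1, by omega, by simpa using hy⟩
    · simp
  | succ m ih =>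
    have h := ih (fun i hi hi' => hm i hi (by omega))
    have h2 := Y.ext h e a heE haA (by
      rintro ⟨i, hi, hy⟩
      rw [mem_coset] at hy
      refine hm (m + 2 - i) (by omega) (by omega) ?_
      convert hy using 1
      have h7 : (e * a) ^ (m + 1) * e * a = (e * a) ^ (m + 2) := by
        rw [pow_succ _ (m + 1), mul_assoc]
      rw [h7]
      have h8 : (e * a) ^ (m + 2) = (e * a) ^ i * (e * a) ^ (m + 2 - i) := by
        rw [← pow_add]; congr 1; omega
      rw [h8, inv_mul_cancel_left])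
    have h7 : (e * a) ^ (m + 1) * e * a = (e * a) ^ (m + 1 + 1) := by
      rw [pow_succ _ (m + 1), mul_assoc]
    rw [h7] at h2
    convert h2 using 1
    ext y
    simp only [Set.mem_ofPred_eq, Set.mem_union]
    constructor
    · rintro ⟨i, hi, hy⟩
      by_cases hi' : i < m + 2
      · exact Or.inl ⟨i, hi', hy⟩
      · have : i = m + 2 := by omega
        subst this
        exact Or.inr hy
    · rintro (⟨i, hi, hy⟩ | hy)
      · exact ⟨i, by omega, hy⟩
      · exact ⟨m + 2, by omega, hy⟩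

lemma BH_bot : BH (⊥ : Subgroup G) H = (H : Set G) := by
  ext x
  constructor
  · rintro ⟨b, hb, hx⟩
    rw [Subgroup.mem_bot] at hb
    subst hb
    simpa using hx
  · intro hx
    exact ⟨1, Subgroup.one_mem _, by simpa using hx⟩

lemma comm_sup (α : G) : ∀ y ∈ Subgroup.zpowers α ⊔ Subgroup.center G,
    ∀ z ∈ Subgroup.zpowers α ⊔ Subgroup.center G, y * z = z * y := by
  intro y hy z hz
  rw [← SetLike.mem_coe, Subgroup.mul_normal] at hy hz
  obtain ⟨y1, hy1, y2, hy2, rfl⟩ := hy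
  obtain ⟨z1, hz1, z2, hz2, rfl⟩ := hz
  obtain ⟨i, rfl⟩ := Subgroup.mem_zpowers_iff.1 hy1
  obtain ⟨j, rfl⟩ := Subgroup.mem_zpowers_iff.1 hz1
  have h1 := Subgroup.mem_center_iff.1 hy2
  have h2 := Subgroup.mem_center_iff.1 hz2
  have h3 : α ^ i * α ^ j = α ^ j * α ^ i := by rw [← zpow_add, ← zpow_add, add_comm]
  calc α ^ i * y2 * (α ^ j * z2) = α ^ i * (y2 * α ^ j) * z2 := by simp only [mul_assoc]
    _ = α ^ i * (α ^ j * y2) * z2 := by rw [h1]
    _ = (α ^ i * α ^ j) * (y2 * z2) := by simp only [mul_assoc]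
    _ = (α ^ j * α ^ i) * (z2 * y2) := by rw [h3, h2 y2]
    _ = α ^ j * (α ^ i * z2) * y2 := by simp only [mul_assoc]
    _ = α ^ j * (z2 * α ^ i) * y2 := by rw [h2]
    _ = _ := by simp only [mul_assoc]

lemma smul_eq_of_mem_St {D : Set G} {g : G} (h : g ∈ St D) : g • D = D :=
  MulAction.mem_stabilizer_iff.1 h

/-- The first walk: only `e`, `e⁻¹` are used. -/
lemma base [Finite G] {e : G} (he : e ∈ H) (heE : e ∈ E) (heE' : e⁻¹ ∈ E) {A : Set G} (haA : a ∈ A)
    (haA' : a⁻¹ ∈ A) (haH : a ∉ H) (ht : e * a * e⁻¹ * a⁻¹ ∈ Subgroup.center G) :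
    ∃ v, v ∈ St (BH (Subgroup.zpowers a ⊔ Subgroup.zpowers (e * a * e⁻¹ * a⁻¹)) H) ∧
      Y H E A (BH (Subgroup.zpowers a ⊔ Subgroup.zpowers (e * a * e⁻¹ * a⁻¹)) H) 1 v := by
  obtain ⟨t, htdef⟩ : ∃ t, t = e * a * e⁻¹ * a⁻¹ := ⟨_, rfl⟩
  obtain ⟨α, hα⟩ : ∃ α, α = e * a := ⟨_, rfl⟩
  obtain ⟨β, hβ⟩ : ∃ β, β = e⁻¹ * a⁻¹ := ⟨_, rfl⟩
  rw [← htdef] at ht ⊢
  have hcen := Subgroup.mem_center_iff.1 ht
  have hαβ : α * β = t := by rw [hα, hβ, htdef]; group
  have hβα : β = α⁻¹ * t := by rw [← hαβ]; group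
  -- the abelian group `⟨α, Z⟩`
  set U := Subgroup.zpowers α ⊔ Subgroup.center G with hUdef
  have hU := comm_sup α
  rw [← hUdef] at hU
  have hαU : α ∈ U := Subgroup.mem_sup_left (Subgroup.mem_zpowers α)
  have htU : t ∈ U := Subgroup.mem_sup_right ht
  have hβU : β ∈ U := by rw [hβα]; exact U.mul_mem (U.inv_mem hαU) htU
  have hCt : Subgroup.zpowers t ≤ Subgroup.center G := by rwa [Subgroup.zpowers_le]
  -- the first row
  obtain ⟨m', hm1, hm2, hm3, hm4⟩ := exists_period (B := ⊥) (H := H) (x := α) U hU bot_le hαU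
    (isOfFinOrder_of_finite α)
  have hm'0 : m' ≠ 0 := by
    rintro rfl
    rw [BH_bot, zero_add, pow_one] at hm4
    apply haH
    have h1 := H.mul_mem (H.inv_mem he) hm4
    rw [hα] at h1
    simpa using h1
  obtain ⟨m, rfl⟩ := Nat.exists_eq_succ_of_ne_zero hm'0
  rw [bot_sup_eq, BH_bot] at hm2
  rw [BH_bot] at hm3 hm1
  have hrow := row (H := H) (E := E) (a := a) he heE haA (m := m) (by rw [← hα]; exact hm3)
  rw [← hα] at hrow
  rw [Nat.succ_eq_add_one] at hm2
  rw [show m + 1 + 1 = m + 2 from rfl] at hm2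
  rw [hm2] at hrow
  -- the rows
  obtain ⟨q, hq1, hq2, -, -⟩ := exists_period (B := Subgroup.zpowers α) (H := H) (x := β) U hU
    (by rw [Subgroup.zpowers_le]; exact hαU) hβU (isOfFinOrder_of_finite β)
  obtain ⟨y, hy⟩ : ∃ y, y = α ^ (m + 1) * β := ⟨_, rfl⟩
  have hyi : ∀ i, y ^ i • BH (Subgroup.zpowers α) H = β ^ i • BH (Subgroup.zpowers α) H := by
    intro i
    have h1 : y ^ i = β ^ i * (α ^ (m + 1)) ^ i := by
      rw [hy, (show Commute (α ^ (m + 1)) β from hU _ (U.pow_mem hαU _) _ hβU).mul_pow]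
      exact hU _ (U.pow_mem (U.pow_mem hαU _) _) _ (U.pow_mem hβU _)
    rw [h1, mul_smul]
    congr 1
    apply smul_eq_of_mem_St
    exact le_St (Subgroup.pow_mem _ (Subgroup.pow_mem _ (Subgroup.mem_zpowers α) _) _)
  have hrows := Y.iter hrow (e := e⁻¹) (s := a⁻¹) (e' := e) (y := y) heE' haA' heE
    (by rw [hy, hβ]; group) q (by
      intro i hi hi'
      rw [hyi]
      exact hq1 i hi hi')
  have hset : {x | ∃ i < q + 1, x ∈ y ^ i • BH (Subgroup.zpowers α) H} =
      BH (Subgroup.zpowers α ⊔ Subgroup.zpowers β) H := by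
    rw [← hq2]
    ext x
    simp only [Set.mem_ofPred_eq, hyi]
  rw [hset] at hrows
  -- compare `⟨α, β⟩ H` and `⟨a, t⟩ H`
  have hαt : Subgroup.zpowers α ⊔ Subgroup.zpowers β = Subgroup.zpowers α ⊔ Subgroup.zpowers t := by
    apply le_antisymm
    · refine sup_le le_sup_left ?_
      rw [Subgroup.zpowers_le, hβα]
      exact Subgroup.mul_mem _ (Subgroup.inv_mem _ (Subgroup.mem_sup_left (Subgroup.mem_zpowers α)))
        (Subgroup.mem_sup_right (Subgroup.mem_zpowers t))
    · refine sup_le le_sup_left ?_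
      rw [Subgroup.zpowers_le, ← hαβ]
      exact Subgroup.mul_mem _ (Subgroup.mem_sup_left (Subgroup.mem_zpowers α))
        (Subgroup.mem_sup_right (Subgroup.mem_zpowers β))
  rw [hαt] at hrows
  have heα : e ∈ St (BH (Subgroup.zpowers α ⊔ Subgroup.zpowers t) H) := by
    apply e_mem_St hCt he
    have : e * α * e⁻¹ * α⁻¹ = t := by
      rw [hα]
      have h1 : e * (e * a) * e⁻¹ * (e * a)⁻¹ = e * (e * a * e⁻¹ * a⁻¹) * e⁻¹ := by group
      rw [h1, ← htdef, hcen e]
      group
    rw [this]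
    exact Subgroup.mem_zpowers t
  have hea : e ∈ St (BH (Subgroup.zpowers a ⊔ Subgroup.zpowers t) H) := by
    apply e_mem_St hCt he
    rw [← htdef]
    exact Subgroup.mem_zpowers t
  have hEq : BH (Subgroup.zpowers α ⊔ Subgroup.zpowers t) H =
      BH (Subgroup.zpowers a ⊔ Subgroup.zpowers t) H := by
    apply Set.Subset.antisymm
    · apply BH_subset one_mem_BH
      · rw [sup_le_iff, Subgroup.zpowers_le, Subgroup.zpowers_le]
        constructor
        · rw [hα]
          exact Subgroup.mul_mem _ hea (le_St (Subgroup.mem_sup_left (Subgroup.mem_zpowers a)))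
        · exact le_St (Subgroup.mem_sup_right (Subgroup.mem_zpowers t))
      · intro x hx k hk
        exact BH_right hx hk
    · apply BH_subset one_mem_BH
      · rw [sup_le_iff, Subgroup.zpowers_le, Subgroup.zpowers_le]
        constructor
        · have : a = e⁻¹ * α := by rw [hα]; group
          rw [this]
          exact Subgroup.mul_mem _ (Subgroup.inv_mem _ heα)
            (le_St (Subgroup.mem_sup_left (Subgroup.mem_zpowers α)))
        · exact le_St (Subgroup.mem_sup_right (Subgroup.mem_zpowers t))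
      · intro x hx k hk
        exact BH_right hx hk
  have hfin := Y.smul hrows e⁻¹
  rw [smul_eq_of_mem_St (Subgroup.inv_mem _ heα), inv_mul_cancel, hEq] at hfin
  refine ⟨_, ?_, hfin⟩
  rw [hEq] at heα
  have hαS : α ∈ St (BH (Subgroup.zpowers a ⊔ Subgroup.zpowers t) H) := by
    rw [hα]
    exact Subgroup.mul_mem _ heα (le_St (Subgroup.mem_sup_left (Subgroup.mem_zpowers a)))
  have htS : t ∈ St (BH (Subgroup.zpowers a ⊔ Subgroup.zpowers t) H) :=
    le_St (Subgroup.mem_sup_right (Subgroup.mem_zpowers t))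
  have hβS : β ∈ St (BH (Subgroup.zpowers a ⊔ Subgroup.zpowers t) H) := by
    rw [hβα]
    exact Subgroup.mul_mem _ (Subgroup.inv_mem _ hαS) htS
  refine Subgroup.mul_mem _ (Subgroup.inv_mem _ heα) (Subgroup.mul_mem _ (Subgroup.pow_mem _ ?_ _)
    (Subgroup.pow_mem _ hαS _))
  rw [hy]
  exact Subgroup.mul_mem _ (Subgroup.pow_mem _ hαS _) hβS

/-- The walk through `⟨a, [e, a] : e ∈ E⟩ H`. -/
lemma exists_walk_finset [Finite G] {A : Set G} (haA : a ∈ A) (haA' : a⁻¹ ∈ A) (haH : a ∉ H)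
    (hEH : E ⊆ H) (hinv : ∀ e ∈ E, e⁻¹ ∈ E) (hne : E.Nonempty)
    (hcen : ∀ e ∈ E, e * a * e⁻¹ * a⁻¹ ∈ Subgroup.center G) (F : Finset G) (hF : ∀ e ∈ F, e ∈ E) :
    ∃ C : Subgroup G, C ≤ Subgroup.center G ∧ C ≤ Subgroup.closure (insert a E) ∧
      (∀ e ∈ F, e * a * e⁻¹ * a⁻¹ ∈ C) ∧
      ∃ v, v ∈ St (BH (Subgroup.zpowers a ⊔ C) H) ∧
        Y H E A (BH (Subgroup.zpowers a ⊔ C) H) 1 v := by
  classical
  have hcl : ∀ e ∈ E, e * a * e⁻¹ * a⁻¹ ∈ Subgroup.closure (insert a E) := by
    intro e he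
    have h1 : e ∈ Subgroup.closure (insert a E) := Subgroup.subset_closure (Set.mem_insert_of_mem _ he)
    have h2 : a ∈ Subgroup.closure (insert a E) := Subgroup.subset_closure (Set.mem_insert _ _)
    exact Subgroup.mul_mem _ (Subgroup.mul_mem _ (Subgroup.mul_mem _ h1 h2) (Subgroup.inv_mem _ h1))
      (Subgroup.inv_mem _ h2)
  induction F using Finset.induction_on with
  | empty =>
    obtain ⟨e, he⟩ := hne
    obtain ⟨v, hv, hY⟩ := base (H := H) (E := E) (a := a) (hEH he) he (hinv e he) haA haA' haH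
      (hcen e he)
    refine ⟨Subgroup.zpowers (e * a * e⁻¹ * a⁻¹), ?_, ?_, by simp, v, hv, hY⟩
    · rw [Subgroup.zpowers_le]; exact hcen e he
    · rw [Subgroup.zpowers_le]; exact hcl e he
  | insert e F heF ih =>
    obtain ⟨C, hC, hCcl, hCF, v, hv, hY⟩ := ih (fun e he => hF e (Finset.mem_insert_of_mem he))
    have he : e ∈ E := hF e (Finset.mem_insert_self _ _)
    obtain ⟨τ, hτ⟩ : ∃ τ, τ = e * a * e⁻¹ * a⁻¹ := ⟨_, rfl⟩
    have hτc : τ ∈ Subgroup.center G := by rw [hτ]; exact hcen e he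
    have hτc' := Subgroup.mem_center_iff.1 hτc
    have hU := comm_sup a
    set U := Subgroup.zpowers a ⊔ Subgroup.center G with hUdef
    obtain ⟨q, hq1, hq2, -, -⟩ := exists_period (B := Subgroup.zpowers a ⊔ C) (H := H) (x := τ) U hU
      (sup_le_sup_left hC _) (Subgroup.mem_sup_right hτc) (isOfFinOrder_of_finite τ)
    have haS : a ∈ St (BH (Subgroup.zpowers a ⊔ C) H) :=
      le_St (Subgroup.mem_sup_left (Subgroup.mem_zpowers a))
    obtain ⟨y, hy⟩ : ∃ y, y = τ * (v * a) := ⟨_, rfl⟩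
    have hyi : ∀ i, y ^ i • BH (Subgroup.zpowers a ⊔ C) H = τ ^ i • BH (Subgroup.zpowers a ⊔ C) H := by
      intro i
      have h1 : y ^ i = τ ^ i * (v * a) ^ i := by
        rw [hy, (show Commute τ (v * a) from (hτc' (v * a)).symm).mul_pow]
      rw [h1, mul_smul]
      congr 1
      exact smul_eq_of_mem_St (Subgroup.pow_mem _ (Subgroup.mul_mem _ hv haS) _)
    have hit := Y.iter hY (e := e) (s := a) (e' := e⁻¹) (y := y) he haA (hinv e he)
      (by
        rw [hy, mul_one]
        have h1 : e * a * e⁻¹ = τ * a := by rw [hτ]; group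
        calc v * e * a * e⁻¹ = v * (e * a * e⁻¹) := by simp only [mul_assoc]
          _ = v * τ * a := by rw [h1, mul_assoc]
          _ = τ * v * a := by rw [hτc']
          _ = _ := by rw [mul_assoc]) q (by
      intro i hi hi'
      rw [hyi]
      exact hq1 i hi hi')
    have hset : {x | ∃ i < q + 1, x ∈ y ^ i • BH (Subgroup.zpowers a ⊔ C) H} =
        BH (Subgroup.zpowers a ⊔ (C ⊔ Subgroup.zpowers τ)) H := by
      rw [← sup_assoc, ← hq2]
      ext x
      simp only [Set.mem_ofPred_eq, hyi]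
    rw [hset] at hit
    refine ⟨C ⊔ Subgroup.zpowers τ, ?_, ?_, ?_, _, ?_, hit⟩
    · rw [sup_le_iff, Subgroup.zpowers_le]; exact ⟨hC, hτc⟩
    · rw [sup_le_iff, Subgroup.zpowers_le]; exact ⟨hCcl, by rw [hτ]; exact hcl e he⟩
    · intro f hf
      rcases Finset.mem_insert.1 hf with rfl | hf
      · rw [← hτ]; exact Subgroup.mem_sup_right (Subgroup.mem_zpowers τ)
      · exact Subgroup.mem_sup_left (hCF f hf)
    · -- stabilizers
      have hmono : ∀ g ∈ St (BH (Subgroup.zpowers a ⊔ C) H),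
          g ∈ St (BH (Subgroup.zpowers a ⊔ (C ⊔ Subgroup.zpowers τ)) H) := by
        have key : ∀ g ∈ St (BH (Subgroup.zpowers a ⊔ C) H),
            ∀ x ∈ BH (Subgroup.zpowers a ⊔ (C ⊔ Subgroup.zpowers τ)) H,
              g * x ∈ BH (Subgroup.zpowers a ⊔ (C ⊔ Subgroup.zpowers τ)) H := by
          intro g hg x hx
          rw [← sup_assoc, ← hq2] at hx ⊢
          obtain ⟨i, hi, hx⟩ := hx
          refine ⟨i, hi, ?_⟩
          rw [Set.mem_smul_set_iff_inv_smul_mem, smul_eq_mul] at hx ⊢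
          have h2 : (τ ^ i)⁻¹ * (g * x) = g * ((τ ^ i)⁻¹ * x) := by
            have h3 := Subgroup.mem_center_iff.1
              ((Subgroup.center G).inv_mem ((Subgroup.center G).pow_mem hτc i)) g
            rw [← mul_assoc, ← h3, mul_assoc]
          rw [h2]
          exact St_mul hg hx
        intro g hg
        exact mem_St_of (key g hg) (key g⁻¹ (Subgroup.inv_mem _ hg))
      refine Subgroup.mul_mem _ (Subgroup.pow_mem _ ?_ _) (hmono v hv)
      rw [hy]
      refine Subgroup.mul_mem _ ?_ (Subgroup.mul_mem _ (hmono v hv) (hmono a haS))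
      exact le_St (Subgroup.mem_sup_right (Subgroup.mem_sup_right (Subgroup.mem_zpowers τ)))

/-- **Coset walks.** Let `E = E⁻¹` be a nonempty subset of `H` generating `H`, `a ∉ H`, and let the
commutators `e a e⁻¹ a⁻¹`, `e ∈ E`, be central. Then some coset walk meets all the left cosets of `H`
in `⟨H, a⟩`. -/
theorem exists_walk [Finite G] {A : Set G} (haA : a ∈ A) (haA' : a⁻¹ ∈ A) (haH : a ∉ H)
    (hEH : Subgroup.closure E = H) (hinv : ∀ e ∈ E, e⁻¹ ∈ E) (hne : E.Nonempty)
    (hcen : ∀ e ∈ E, e * a * e⁻¹ * a⁻¹ ∈ Subgroup.center G) :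
    ∃ v, Y H E A ((Subgroup.closure (insert a E) : Subgroup G) : Set G) 1 v := by
  classical
  have hEsub : E ⊆ H := by rw [← hEH]; exact Subgroup.subset_closure
  have hfin : E.Finite := Set.toFinite E
  obtain ⟨C, hC, hCcl, hCF, v, hv, hY⟩ := exists_walk_finset (H := H) (E := E) (a := a) haA haA' haH
    hEsub hinv hne hcen hfin.toFinset (fun e he => hfin.mem_toFinset.1 he)
  refine ⟨v, ?_⟩
  convert hY using 1
  have hHle : H ≤ Subgroup.closure (insert a E) := by
    rw [← hEH]; exact Subgroup.closure_mono (Set.subset_insert _ _)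
  apply Set.Subset.antisymm
  · -- `closure (insert a E) ≤ St`
    have h1 : Subgroup.closure (insert a E) ≤ St (BH (Subgroup.zpowers a ⊔ C) H) := by
      rw [Subgroup.closure_le]
      intro x hx
      rcases Set.mem_insert_iff.1 hx with rfl | hx
      · exact le_St (Subgroup.mem_sup_left (Subgroup.mem_zpowers x))
      · exact e_mem_St hC (hEsub hx) (hCF x (hfin.mem_toFinset.2 hx))
    intro x hx
    have := St_mul (h1 hx) one_mem_BH
    simpa using this
  · rintro x ⟨b, hb, hx⟩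
    have hb' : b ∈ Subgroup.closure (insert a E) := by
      have : Subgroup.zpowers a ⊔ C ≤ Subgroup.closure (insert a E) := by
        rw [sup_le_iff, Subgroup.zpowers_le]
        exact ⟨Subgroup.subset_closure (Set.mem_insert _ _), hCcl⟩
      exact this hb
    have h2 := Subgroup.mul_mem _ hb' (hHle hx)
    simpa using h2

end ClassTwo

end Pool.Agent.Run7.h90.Ham
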