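import Pool.Agent.Run7.h90.Ham.Path

/-!
# Hamiltonian paths modulo a normal subgroup: quotients of class two
-/

set_option autoImplicit false

namespace Pool.Agent.Run7.h90.Ham

open Pointwise
open scoped commutatorElement

variable {G : Type*} [Group G]

section

variable {S : Set G} {N : Subgroup G} [N.Normal]

lemma map_gen {H : Subgroup G} {E : Set G} (hgen : Subgroup.closure E ⊔ N = H) :
    Subgroup.closure (QuotientGroup.mk' N '' E) = H.map (QuotientGroup.mk' N) := by
  rw [← hgen, Subgroup.map_sup, ← MonoidHom.map_closure]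
  have : N.map (QuotientGroup.mk' N) = ⊥ := by
    rw [Subgroup.map_eq_bot_iff, QuotientGroup.ker_mk']
  rw [this, sup_bot_eq]

lemma comap_map_mk {H : Subgroup G} (hNH : N ≤ H) :
    (H.map (QuotientGroup.mk' N)).comap (QuotientGroup.mk' N) = H := by
  rw [Subgroup.comap_map_eq, QuotientGroup.ker_mk', sup_eq_left.2 hNH]

lemma walk_step [Finite G] (hS : ∀ s ∈ S, s⁻¹ ∈ S) (hcl : ∀ x y z : G, ⁅⁅x, y⁆, z⁆ ∈ N)
    {H : Subgroup G} (hNH : N ≤ H) {a : G} (haH : a ∉ H) (hne : (En S H).Nonempty)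
    (hgen : Subgroup.closure (En S H) ⊔ N = H) :
    ∃ v, Y H (En S H) {a, a⁻¹} ((Subgroup.closure (insert a (H : Set G)) : Subgroup G) : Set G) 1 v := by
  obtain ⟨π, hπ⟩ : ∃ π : G →* G ⧸ N, π = QuotientGroup.mk' N := ⟨_, rfl⟩
  have hcm := comap_map_mk (N := N) hNH
  rw [← hπ] at hcm
  have hmg := map_gen (N := N) (H := H) hgen
  rw [← hπ] at hmg
  have hsurj : Function.Surjective π := by rw [hπ]; exact QuotientGroup.mk'_surjective N
  have hker : ∀ x, x ∈ N → π x = 1 := by
    intro x hx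
    rw [hπ]
    exact (QuotientGroup.eq_one_iff x).2 hx
  obtain ⟨v', hv'⟩ := exists_walk (H := H.map π) (E := π '' En S H) (a := π a)
    (A := π '' {a, a⁻¹}) ⟨a, by simp, rfl⟩ ⟨a⁻¹, by simp, by simp⟩
    (by
      intro h
      apply haH
      rw [← hcm]
      exact h) hmg
    (by
      rintro _ ⟨e, he, rfl⟩
      exact ⟨e⁻¹, En_inv hS he, by simp⟩)
    (hne.image _)
    (by
      rintro _ ⟨e, he, rfl⟩
      rw [Subgroup.mem_center_iff]
      intro g
      obtain ⟨g, rfl⟩ := hsurj g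
      have h1 := hker _ (hcl e a g)
      rw [commutatorElement_def, commutatorElement_def] at h1
      simp only [map_mul, map_inv] at h1
      have h2 : π e * π a * (π e)⁻¹ * (π a)⁻¹ * π g = π g * (π e * π a * (π e)⁻¹ * (π a)⁻¹) := by
        have h3 := congrArg (fun z => z * (π g * (π e * π a * (π e)⁻¹ * (π a)⁻¹))) h1
        simp only [one_mul] at h3
        rw [← h3]
        group
      exact h2.symm)
  rw [hπ] at hv'
  obtain ⟨v, -, hY⟩ := Y.lift hv' 1 (map_one _)
  rw [← hπ, hcm] at hY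
  refine ⟨v, ?_⟩
  convert hY using 1
  have h1 : insert (π a) (π '' En S H) = π '' (insert a (En S H)) := by
    rw [Set.image_insert_eq]
  rw [h1]
  have h2 : Subgroup.closure (π '' (insert a (En S H))) =
      (Subgroup.closure (insert a (H : Set G))).map π := by
    rw [hπ]
    apply map_gen
    apply le_antisymm
    · rw [sup_le_iff]
      constructor
      · apply Subgroup.closure_mono
        exact Set.insert_subset_insert En_sub
      · intro n hn
        exact Subgroup.subset_closure (Set.mem_insert_of_mem _ (hNH hn))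
    · rw [Subgroup.closure_le]
      intro x hx
      rcases Set.mem_insert_iff.1 hx with rfl | hx
      · exact Subgroup.mem_sup_left (Subgroup.subset_closure (Set.mem_insert _ _))
      · have hx' : x ∈ Subgroup.closure (En S H) ⊔ N := by rw [hgen]; exact hx
        refine (sup_le_sup_right (Subgroup.closure_mono (Set.subset_insert _ _)) N : _) hx'
  rw [h2]
  have h3 : N ≤ Subgroup.closure (insert a (H : Set G)) := fun n hn =>
    Subgroup.subset_closure (Set.mem_insert_of_mem _ (hNH hn))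
  have h4 := comap_map_mk (N := N) h3
  rw [← hπ] at h4
  rw [← Subgroup.coe_comap, h4]

/-- The cyclic case. -/
lemma walk_cyc [Finite G] {a : G} (haN : a ∉ N) (hne : (En S N).Nonempty) :
    ∃ v, v * a ∈ N ∧
      Y N (En S N) {a, a⁻¹} ((Subgroup.closure (insert a (N : Set G)) : Subgroup G) : Set G) 1 v := by
  classical
  obtain ⟨π, hπ⟩ : ∃ π : G →* G ⧸ N, π = QuotientGroup.mk' N := ⟨_, rfl⟩
  have hker : ∀ x, π x = 1 ↔ x ∈ N := by
    intro x
    rw [hπ]
    exact QuotientGroup.eq_one_iff x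
  have hπa : π a ≠ 1 := by
    intro h
    exact haN ((hker a).1 h)
  have hord : 2 ≤ orderOf (π a) := by
    have h1 := orderOf_pos (π a)
    have h2 : orderOf (π a) ≠ 1 := by rwa [Ne, orderOf_eq_one_iff]
    omega
  obtain ⟨m, hm⟩ : ∃ m, orderOf (π a) = m + 2 := ⟨orderOf (π a) - 2, by omega⟩
  have h1E : (1 : G ⧸ N) ∈ π '' En S N := by
    obtain ⟨e, he⟩ := hne
    exact ⟨e, he, (hker e).2 (En_sub he)⟩
  have hr := row (H := (⊥ : Subgroup (G ⧸ N))) (E := π '' En S N) (a := π a) (e := 1)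
    (Subgroup.one_mem _) h1E (A := π '' {a, a⁻¹}) ⟨a, by simp, rfl⟩ (m := m) (by
      intro i hi hi' h
      rw [Subgroup.mem_bot, one_mul] at h
      have := orderOf_dvd_of_pow_eq_one h
      have := Nat.le_of_dvd hi this
      omega)
  simp only [one_mul] at hr
  rw [hπ] at hr
  obtain ⟨v, hv, hY⟩ := Y.lift hr 1 (map_one _)
  rw [← hπ] at hv hY
  refine ⟨v, ?_, ?_⟩
  · rw [← hker, map_mul, hv, ← pow_succ]
    rw [show m + 1 + 1 = orderOf (π a) from hm.symm]
    exact pow_orderOf_eq_one _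
  · have hc : (⊥ : Subgroup (G ⧸ N)).comap π = N := by
      ext x
      rw [Subgroup.mem_comap, Subgroup.mem_bot, hker]
    rw [hc] at hY
    convert hY using 1
    ext x
    rw [Set.mem_preimage, Set.mem_ofPred_eq]
    constructor
    · intro hx
      have h1 : Subgroup.closure (insert a (N : Set G)) ≤ (Subgroup.zpowers (π a)).comap π := by
        rw [Subgroup.closure_le]
        intro y hy
        rcases Set.mem_insert_iff.1 hy with rfl | hy
        · exact Subgroup.mem_zpowers _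
        · have : π y = 1 := (hker y).2 hy
          show π y ∈ Subgroup.zpowers (π a)
          rw [this]
          exact Subgroup.one_mem _
      have h2 : π x ∈ Subgroup.zpowers (π a) := h1 hx
      rw [mem_zpowers_iff_mem_range_orderOf] at h2
      obtain ⟨i, hi, hix⟩ := Finset.mem_image.1 h2
      refine ⟨i, by rw [← hm]; exact Finset.mem_range.1 hi, ?_⟩
      rw [mem_coset, Subgroup.mem_bot, ← hix]
      simp
    · rintro ⟨i, hi, hx⟩
      rw [mem_coset, Subgroup.mem_bot, inv_mul_eq_one] at hx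
      have h1 : (a ^ i)⁻¹ * x ∈ N := by
        rw [← hker, map_mul, map_inv, map_pow, hx, inv_mul_cancel]
      have h2 : x = a ^ i * ((a ^ i)⁻¹ * x) := by group
      rw [h2]
      exact Subgroup.mul_mem _ (Subgroup.pow_mem _ (Subgroup.subset_closure (Set.mem_insert _ _)) _)
        (Subgroup.subset_closure (Set.mem_insert_of_mem _ h1))

lemma comm_central {Q : Type*} [Group Q] {m c m' c' : Q} (hc : c ∈ Subgroup.center Q)
    (hc' : c' ∈ Subgroup.center Q) : ⁅m * c, m' * c'⁆ = ⁅m, m'⁆ := by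
  have h1 := Subgroup.mem_center_iff.1 hc
  have h2 := Subgroup.mem_center_iff.1 hc'
  have h3 := Subgroup.mem_center_iff.1 (Subgroup.inv_mem _ hc)
  have h4 := Subgroup.mem_center_iff.1 (Subgroup.inv_mem _ hc')
  rw [commutatorElement_def, commutatorElement_def, mul_inv_rev, mul_inv_rev]
  calc m * c * (m' * c') * (c⁻¹ * m⁻¹) * (c'⁻¹ * m'⁻¹)
      = m * (c * m') * c' * c⁻¹ * m⁻¹ * c'⁻¹ * m'⁻¹ := by simp only [mul_assoc]
    _ = m * (m' * c) * c' * c⁻¹ * (m⁻¹ * c'⁻¹) * m'⁻¹ := by rw [h1]; simp only [mul_assoc]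
    _ = m * m' * (c * c') * c⁻¹ * (c'⁻¹ * m⁻¹) * m'⁻¹ := by rw [h4]; simp only [mul_assoc]
    _ = m * m' * (c' * c) * c⁻¹ * (c'⁻¹ * m⁻¹) * m'⁻¹ := by rw [h1 c']; 
    _ = m * m' * c' * c'⁻¹ * m⁻¹ * m'⁻¹ := by group
    _ = _ := by group

/-- In class two modulo `N`: a subgroup which generates modulo commutators generates. -/
lemma frattini_two (hcl : ∀ x y z : G, ⁅⁅x, y⁆, z⁆ ∈ N) {L M : Subgroup G} (hNM : N ≤ M)
    (h : L ≤ M ⊔ ⁅L, L⁆) : L ≤ M := by
  -- the second centre modulo `N`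
  obtain ⟨Z, hZ⟩ : ∃ Z : Subgroup G, Z = (Subgroup.center (G ⧸ N)).comap (QuotientGroup.mk' N) :=
    ⟨_, rfl⟩
  have hZn : Z.Normal := by rw [hZ]; infer_instance
  have hLZ : ⁅L, L⁆ ≤ Z := by
    rw [Subgroup.commutator_le]
    intro x _ y _
    rw [hZ, Subgroup.mem_comap, Subgroup.mem_center_iff]
    intro g
    obtain ⟨g, rfl⟩ := QuotientGroup.mk'_surjective N g
    have h1 : QuotientGroup.mk' N ⁅⁅x, y⁆, g⁆ = 1 := (QuotientGroup.eq_one_iff _).2 (hcl x y g)
    rw [map_commutatorElement, commutatorElement_eq_one_iff_mul_comm] at h1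
    exact h1.symm
  have hLL : ⁅L, L⁆ ≤ M := by
    rw [Subgroup.commutator_le]
    intro x hx y hy
    have hx1 : x ∈ M ⊔ Z := (sup_le_sup_left hLZ M) (h hx)
    have hy1 : y ∈ M ⊔ Z := (sup_le_sup_left hLZ M) (h hy)
    rw [← SetLike.mem_coe, Subgroup.mul_normal] at hx1 hy1
    obtain ⟨m, hm, c, hc, rfl⟩ := hx1
    obtain ⟨m', hm', c', hc', rfl⟩ := hy1
    have h1 : QuotientGroup.mk' N ⁅m * c, m' * c'⁆ = QuotientGroup.mk' N ⁅m, m'⁆ := by
      rw [map_commutatorElement, map_commutatorElement, map_mul, map_mul]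
      rw [hZ] at hc hc'
      exact comm_central hc hc'
    have h2 : (⁅m, m'⁆)⁻¹ * ⁅m * c, m' * c'⁆ ∈ N := by
      rw [← QuotientGroup.eq]
      exact h1.symm
    have h3 : ⁅m * c, m' * c'⁆ = ⁅m, m'⁆ * ((⁅m, m'⁆)⁻¹ * ⁅m * c, m' * c'⁆) := by group
    rw [h3]
    refine M.mul_mem ?_ (hNM h2)
    rw [commutatorElement_def]
    exact M.mul_mem (M.mul_mem (M.mul_mem hm hm') (M.inv_mem hm)) (M.inv_mem hm')
  exact h.trans (sup_le le_rfl hLL)

end

end Pool.Agent.Run7.h90.Ham
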