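import Pool.Agent.Run7.h90.Ham.Cover

/-!
# From coset walks to Hamiltonian paths
-/

set_option autoImplicit false

namespace Pool.Agent.Run7.h90.Ham

open Pointwise

variable {G : Type*} [Group G]

/-- There is a path from `x` to `y` in `Cay(G, S)` which visits exactly the elements of `D`. -/
def Pt (S D : Set G) (x y : G) : Prop :=
  ∃ p : List G, p.Nodup ∧ (∀ g, g ∈ p ↔ g ∈ D) ∧ p.IsChain (fun g h => g⁻¹ * h ∈ S) ∧
    p.head? = some x ∧ p.getLast? = some y

lemma Pt.append {S D₁ D₂ : Set G} {x y z w : G} (h1 : Pt S D₁ x y) (h2 : Pt S D₂ z w)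
    (hd : Disjoint D₁ D₂) (hs : y⁻¹ * z ∈ S) : Pt S (D₁ ∪ D₂) x w := by
  obtain ⟨p, p1, p2, p3, p4, p5⟩ := h1
  obtain ⟨q, q1, q2, q3, q4, q5⟩ := h2
  refine ⟨p ++ q, ?_, ?_, ?_, ?_, ?_⟩
  · refine List.Nodup.append p1 q1 ?_
    intro a ha hb
    exact Set.disjoint_left.1 hd ((p2 a).1 ha) ((q2 a).1 hb)
  · intro g
    rw [List.mem_append, p2, q2, Set.mem_union]
  · rw [List.isChain_append]
    refine ⟨p3, q3, ?_⟩
    rw [p5, q4]
    rintro a ha b hb
    simp only [Option.mem_def, Option.some.injEq] at ha hb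
    rw [← ha, ← hb]
    exact hs
  · rw [List.head?_append, p4]; rfl
  · rw [List.getLast?_append, q5]; rfl

lemma Pt.smul {S D : Set G} {x y : G} (h : Pt S D x y) (u : G) : Pt S (u • D) (u * x) (u * y) := by
  obtain ⟨p, p1, p2, p3, p4, p5⟩ := h
  refine ⟨p.map (u * ·), ?_, ?_, ?_, ?_, ?_⟩
  · exact p1.map (mul_right_injective u)
  · intro g
    rw [List.mem_map, Set.mem_smul_set]
    constructor
    · rintro ⟨a, ha, rfl⟩
      exact ⟨a, (p2 a).1 ha, rfl⟩
    · rintro ⟨a, ha, rfl⟩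
      exact ⟨a, (p2 a).2 ha, rfl⟩
  · rw [List.isChain_map]
    exact p3.imp fun a b h => by
      have e : (u * a)⁻¹ * (u * b) = a⁻¹ * b := by group
      rw [e]; exact h
  · rw [List.head?_map, p4]; rfl
  · rw [List.getLast?_map, p5]; rfl

lemma Pt.reverse {S D : Set G} (hS : ∀ s ∈ S, s⁻¹ ∈ S) {x y : G} (h : Pt S D x y) : Pt S D y x := by
  obtain ⟨p, p1, p2, p3, p4, p5⟩ := h
  refine ⟨p.reverse, List.nodup_reverse.2 p1, fun g => by rw [List.mem_reverse, p2], ?_, ?_, ?_⟩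
  · rw [List.isChain_reverse]
    exact p3.imp fun a b h => by
      have := hS _ h
      simpa using this
  · rw [List.head?_reverse, p5]
  · rw [List.getLast?_reverse, p4]

lemma Pt.mem_left {S D : Set G} {x y : G} (h : Pt S D x y) : x ∈ D := by
  obtain ⟨p, p1, p2, p3, p4, p5⟩ := h
  exact (p2 x).1 (List.mem_of_mem_head? p4)

lemma Pt.mem_right {S D : Set G} {x y : G} (h : Pt S D x y) : y ∈ D := by
  obtain ⟨p, p1, p2, p3, p4, p5⟩ := h
  exact (p2 y).1 (List.mem_of_getLast? p5)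

/-- End points of the Hamiltonian paths of the subgroup `L` which start at `1`. -/
def En (S : Set G) (L : Subgroup G) : Set G := {x | Pt S (L : Set G) 1 x}

lemma En_sub {S : Set G} {L : Subgroup G} : En S L ⊆ L := fun _ hx => Pt.mem_right hx

lemma subgroup_smul {L : Subgroup G} {x : G} (hx : x ∈ L) : x • (L : Set G) = L := by
  ext y
  rw [mem_coset]
  exact Subgroup.mul_mem_cancel_left _ (L.inv_mem hx)

lemma coset_eq {L : Subgroup G} {x y : G} (h : x⁻¹ * y ∈ L) : y • (L : Set G) = x • (L : Set G) := by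
  have : y = x * (x⁻¹ * y) := by group
  rw [this, mul_smul, subgroup_smul h]

lemma En_inv {S : Set G} (hS : ∀ s ∈ S, s⁻¹ ∈ S) {L : Subgroup G} {x : G} (hx : x ∈ En S L) :
    x⁻¹ ∈ En S L := by
  have h1 := (Pt.reverse hS hx).smul x⁻¹
  rw [subgroup_smul (L.inv_mem (En_sub hx)), inv_mul_cancel, mul_one] at h1
  exact h1

lemma coset_disjoint {L : Subgroup G} {D : Set G} (hD : ∀ x ∈ D, ∀ k ∈ L, x * k ∈ D) {y : G}
    (hy : y ∉ D) : Disjoint D (y • (L : Set G)) := by
  rw [Set.disjoint_left]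
  intro x hx hx'
  rw [mem_coset] at hx'
  apply hy
  have := hD x hx _ (L.inv_mem hx')
  simpa using this

/-- Coset walks give paths. -/
lemma Y.path {S A : Set G} (hA : A ⊆ S) {H : Subgroup G} {D : Set G}
    {f v : G} (h : Y H (En S H) A D f v) :
    ∀ e ∈ En S H, ∀ e' ∈ En S H, Pt S D (f * e⁻¹) (v * e') := by
  induction h with
  | two f s hs hd =>
    intro e he e' he'
    have h1 : Pt S _ _ _ := Pt.smul (show Pt S (H : Set G) 1 e from he) (f * e⁻¹)
    rw [mul_one, inv_mul_cancel_right, mul_smul, subgroup_smul (H.inv_mem (En_sub he))] at h1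
    have h2 : Pt S _ _ _ := Pt.smul (show Pt S (H : Set G) 1 e' from he') (f * s)
    rw [mul_one] at h2
    refine Pt.append h1 h2 ?_ (by simpa using hA hs)
    apply coset_disjoint
    · intro x hx k hk
      rw [mem_coset] at hx ⊢
      rw [← mul_assoc]
      exact H.mul_mem hx hk
    · rw [mem_coset]
      simpa using hd
  | @ext D' f' v' h e₀ s he₀ hs hd ih =>
    intro e he e' he'
    have h1 := ih e he e₀ he₀
    have h2 : Pt S _ _ _ := Pt.smul (show Pt S (H : Set G) 1 e' from he') (v' * e₀ * s)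
    rw [mul_one] at h2
    exact Pt.append h1 h2 (coset_disjoint h.right_inv hd)
      (by rw [inv_mul_cancel_left]; exact hA hs)
  | join h₁ h₂ e₀ s e₁ he₀ hs he₁ hf hd ih₁ ih₂ =>
    intro e he e' he'
    have h1 := ih₁ e he e₀ he₀
    have h2 := ih₂ e₁ he₁ e' he'
    rw [← hf] at h2
    rw [mul_inv_cancel_right] at h2
    exact Pt.append h1 h2 hd (by rw [inv_mul_cancel_left]; exact hA hs)

lemma Y.mem_left {H : Subgroup G} {E A D : Set G} {f v : G} (h : Y H E A D f v) : f ∈ D := by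
  induction h with
  | two f s hs hd => left; rw [mem_coset]; simp [H.one_mem]
  | ext h e s he hs hd ih => exact Or.inl ih
  | join h₁ h₂ e s e' he hs he' hf hd ih₁ ih₂ => exact Or.inl ih₁

lemma Y.mem_right {H : Subgroup G} {E A D : Set G} {f v : G} (h : Y H E A D f v) : v ∈ D := by
  induction h with
  | two f s hs hd => right; rw [mem_coset]; simp [H.one_mem]
  | ext h e s he hs hd ih => right; rw [mem_coset, inv_mul_cancel]; exact H.one_mem
  | join h₁ h₂ e s e' he hs he' hf hd ih₁ ih₂ => exact Or.inr ih₂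

/-- Lifting coset walks along a quotient map. -/
lemma Y.lift {N : Subgroup G} [N.Normal] {H : Subgroup (G ⧸ N)} {E A : Set G} {D : Set (G ⧸ N)}
    {f' v' : G ⧸ N}
    (h : Y H (QuotientGroup.mk' N '' E) (QuotientGroup.mk' N '' A) D f' v') :
    ∀ f : G, QuotientGroup.mk' N f = f' → ∃ v : G, QuotientGroup.mk' N v = v' ∧
      Y (H.comap (QuotientGroup.mk' N)) E A (QuotientGroup.mk' N ⁻¹' D) f v := by
  have hpre : ∀ (D' : Set (G ⧸ N)) (x : G),
      QuotientGroup.mk' N ⁻¹' (D' ∪ (QuotientGroup.mk' N x) • (H : Set (G ⧸ N))) =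
        (QuotientGroup.mk' N ⁻¹' D') ∪
          x • ((H.comap (QuotientGroup.mk' N) : Subgroup G) : Set G) := by
    intro D' x
    ext y
    rw [Set.mem_preimage, Set.mem_union, Set.mem_union, mem_coset, mem_coset, Subgroup.mem_comap,
      map_mul, map_inv]
    rfl
  induction h with
  | two f' s' hs hd =>
    rintro f rfl
    obtain ⟨s, hs, rfl⟩ := hs
    refine ⟨f * s, map_mul _ _ _, ?_⟩
    rw [← map_mul, hpre]
    have h1 := Y.two (H := H.comap (QuotientGroup.mk' N)) (E := E) (A := A) f s hs hd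
    convert h1 using 1
    congr 1
    ext y
    rw [Set.mem_preimage, mem_coset, mem_coset, Subgroup.mem_comap, map_mul, map_inv]
  | ext h e' s' he hs hd ih =>
    intro f hf
    obtain ⟨v, rfl, hv⟩ := ih f hf
    obtain ⟨e, he, rfl⟩ := he
    obtain ⟨s, hs, rfl⟩ := hs
    refine ⟨v * e * s, by rw [map_mul, map_mul], ?_⟩
    rw [← map_mul, ← map_mul, hpre]
    refine Y.ext hv e s he hs ?_
    rw [← map_mul, ← map_mul] at hd
    exact hd
  | join h₁ h₂ e₀' s' e₁' he₀ hs he₁ hf hd ih₁ ih₂ =>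
    intro f hf'
    obtain ⟨v, rfl, hv⟩ := ih₁ f hf'
    obtain ⟨e₀, he₀, rfl⟩ := he₀
    obtain ⟨e₁, he₁, rfl⟩ := he₁
    obtain ⟨s, hs, rfl⟩ := hs
    obtain ⟨v₂, hv₂, hY⟩ := ih₂ (v * e₀ * s * e₁) (by rw [← hf]; simp only [map_mul])
    refine ⟨v₂, hv₂, ?_⟩
    rw [Set.preimage_union]
    refine Y.join hv hY e₀ s e₁ he₀ hs he₁ rfl ?_
    exact Disjoint.preimage _ hd

/-- Counting the cosets of a walk. -/
lemma Y.count [Finite G] {Q : Type*} [CommGroup Q] {H L : Subgroup G} {E A D : Set G} {f v : G}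
    (h : Y H E A D f v) (χ : G → Q) (hχ : ∀ x ∈ L, ∀ y ∈ L, χ (x * y) = χ x * χ y)
    (hE : E ⊆ L) (hA : A ⊆ L) (hD : D ⊆ L) {ε ζ : Q} (hε : ∀ e ∈ E, χ e = ε)
    (hζ : ∀ s ∈ A, χ s = ζ) :
    ∃ n : ℕ, D.ncard = (n + 2) * Nat.card H ∧ χ v = χ f * ζ ^ (n + 1) * ε ^ n := by
  have hcard : ∀ x : G, (x • (H : Set G)).ncard = Nat.card H := by
    intro x
    rw [Set.ncard_smul_set, ← Nat.card_coe_set_eq]
    rfl
  induction h with
  | two f s hs hd =>
    refine ⟨0, ?_, ?_⟩
    · rw [Set.ncard_union_eq _ (Set.toFinite _) (Set.toFinite _), hcard, hcard]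
      · ring
      · apply coset_disjoint
        · intro x hx k hk
          rw [mem_coset] at hx ⊢
          rw [← mul_assoc]
          exact H.mul_mem hx hk
        · rw [mem_coset]
          simpa using hd
    · have hf : f ∈ L := hD (Or.inl (by rw [mem_coset]; simp [H.one_mem]))
      rw [hχ _ hf _ (hA hs), hζ s hs]
      simp
  | ext h e s he hs hd ih =>
    obtain ⟨n, hn1, hn2⟩ := ih (fun x hx => hD (Or.inl hx))
    refine ⟨n + 1, ?_, ?_⟩
    · rw [Set.ncard_union_eq (coset_disjoint h.right_inv hd) (Set.toFinite _) (Set.toFinite _),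
        hcard, hn1]
      ring
    · have hv := hD (Or.inl h.mem_right)
      rw [hχ _ (L.mul_mem hv (hE he)) _ (hA hs), hχ _ hv _ (hE he), hn2, hε e he, hζ s hs,
        pow_succ ζ (n + 1), pow_succ ε]
      simp only [mul_assoc, mul_comm, mul_left_comm]
  | join h₁ h₂ e₀ s e₁ he₀ hs he₁ hf hd ih₁ ih₂ =>
    obtain ⟨n, hn1, hn2⟩ := ih₁ (fun x hx => hD (Or.inl hx))
    obtain ⟨m, hm1, hm2⟩ := ih₂ (fun x hx => hD (Or.inr hx))
    refine ⟨n + m + 2, ?_, ?_⟩
    · rw [Set.ncard_union_eq hd (Set.toFinite _) (Set.toFinite _), hn1, hm1]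
      ring
    · have hv := hD (Or.inl h₁.mem_right)
      rw [hm2, ← hf, hχ _ (L.mul_mem (L.mul_mem hv (hE he₀)) (hA hs)) _ (hE he₁),
        hχ _ (L.mul_mem hv (hE he₀)) _ (hA hs), hχ _ hv _ (hE he₀), hn2, hε _ he₀, hε _ he₁,
        hζ s hs]
      have e1 : ζ ^ (n + m + 2 + 1) = ζ ^ (n + 1) * ζ * ζ ^ (m + 1) := by
        rw [← pow_succ, ← pow_add]; congr 1; omega
      have e2 : ε ^ (n + m + 2) = ε ^ n * ε * ε * ε ^ m := by
        rw [← pow_succ, ← pow_succ, ← pow_add]; congr 1; omega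
      rw [e1, e2]
      simp only [mul_assoc, mul_comm, mul_left_comm]

end Pool.Agent.Run7.h90.Ham
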