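import Mathlib

/-!
# Coset walks

Let `H` be a subgroup of a group, `E` a set (of end points of Hamiltonian paths of `H`) and `A` a set of
generators. `Y H E A D f v` says: there are `e_i ∈ E`, `s_i ∈ A` such that
`v = f s_1 e_2 s_2 ⋯ e_{n-1} s_{n-1}`, the left cosets of `H` met by the partial products after the
factors `s_i`, together with `f H`, are pairwise distinct, and `D` is their union (`n ≥ 2`).
-/

set_option autoImplicit false

namespace Pool.Agent.Run7.h90.Ham

open Pointwise

variable {G : Type*} [Group G]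

/-- Coset walks. -/
inductive Y (H : Subgroup G) (E A : Set G) : Set G → G → G → Prop
  | two (f s : G) (hs : s ∈ A) (hd : s ∉ H) :
      Y H E A (f • (H : Set G) ∪ (f * s) • (H : Set G)) f (f * s)
  | ext {D : Set G} {f v : G} (h : Y H E A D f v) (e s : G) (he : e ∈ E) (hs : s ∈ A)
      (hd : v * e * s ∉ D) : Y H E A (D ∪ (v * e * s) • (H : Set G)) f (v * e * s)
  | join {D₁ D₂ : Set G} {f v f' v' : G} (h₁ : Y H E A D₁ f v) (h₂ : Y H E A D₂ f' v')
      (e s e' : G) (he : e ∈ E) (hs : s ∈ A) (he' : e' ∈ E) (hf : v * e * s * e' = f')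
      (hd : Disjoint D₁ D₂) : Y H E A (D₁ ∪ D₂) f v'

variable {H : Subgroup G} {E A : Set G}

lemma mem_coset {x y : G} : x ∈ y • (H : Set G) ↔ y⁻¹ * x ∈ H := by
  rw [Set.mem_smul_set_iff_inv_smul_mem, smul_eq_mul, SetLike.mem_coe]

lemma Y.right_inv {D : Set G} {f v : G} (h : Y H E A D f v) :
    ∀ x ∈ D, ∀ k ∈ H, x * k ∈ D := by
  induction h with
  | two f s hs hd =>
    rintro x (hx | hx) k hk
    · left
      rw [mem_coset] at hx ⊢
      rw [← mul_assoc]
      exact H.mul_mem hx hk
    · right
      rw [mem_coset] at hx ⊢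
      rw [← mul_assoc]
      exact H.mul_mem hx hk
  | ext h e s he hs hd ih =>
    rintro x (hx | hx) k hk
    · left
      exact ih x hx k hk
    · right
      rw [mem_coset] at hx ⊢
      rw [← mul_assoc]
      exact H.mul_mem hx hk
  | join h₁ h₂ e s e' he hs he' hf hd ih₁ ih₂ =>
    rintro x (hx | hx) k hk
    · left
      exact ih₁ x hx k hk
    · right
      exact ih₂ x hx k hk

lemma Y.smul {D : Set G} {f v : G} (h : Y H E A D f v) (g : G) :
    Y H E A (g • D) (g * f) (g * v) := by
  induction h with
  | two f s hs hd =>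
    have := Y.two (H := H) (E := E) (A := A) (g * f) s hs hd
    rw [Set.smul_set_union, smul_smul, smul_smul, ← mul_assoc]
    exact this
  | ext h e s he hs hd ih =>
    have h3 := Y.ext ih e s he hs (by
      rw [Set.mem_smul_set_iff_inv_smul_mem, smul_eq_mul]
      simpa only [mul_assoc, inv_mul_cancel_left] using hd)
    rw [Set.smul_set_union, smul_smul]
    simpa only [mul_assoc] using h3
  | join h₁ h₂ e s e' he hs he' hf hd ih₁ ih₂ =>
    have h3 := Y.join ih₁ ih₂ e s e' he hs he' (by rw [← hf]; simp only [mul_assoc])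
      (by
        rw [Set.disjoint_left]
        intro x hx hx'
        rw [Set.mem_smul_set_iff_inv_smul_mem] at hx hx'
        exact Set.disjoint_left.1 hd hx hx')
    rw [Set.smul_set_union]
    exact h3

/-- Iterating a walk along the powers of `y`. -/
lemma Y.iter {D : Set G} {f v : G} (h : Y H E A D f v) {e s e' y : G} (he : e ∈ E) (hs : s ∈ A)
    (he' : e' ∈ E) (hy : v * e * s * e' = y * f) (q : ℕ)
    (hd : ∀ i, 0 < i → i < q + 1 → Disjoint D (y ^ i • D)) :
    Y H E A {x | ∃ i < q + 1, x ∈ y ^ i • D} f (y ^ q * v) := by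
  induction q with
  | zero =>
    convert h using 1
    · ext x
      simp
    · simp
  | succ q ih =>
    have h1 := ih (fun i hi hi' => hd i hi (by omega))
    have h2 := Y.smul h (y ^ (q + 1))
    have h3 := Y.join h1 h2 e s e' he hs he' (by
      calc y ^ q * v * e * s * e' = y ^ q * (v * e * s * e') := by simp only [mul_assoc]
        _ = _ := by rw [hy, pow_succ]; simp only [mul_assoc])
      (by
        rw [Set.disjoint_left]
        rintro x ⟨i, hi, hx⟩ hx'
        have hd' := hd (q + 1 - i) (by omega) (by omega)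
        rw [Set.disjoint_left] at hd'
        rw [Set.mem_smul_set_iff_inv_smul_mem, smul_eq_mul] at hx hx'
        refine hd' hx ?_
        rw [Set.mem_smul_set_iff_inv_smul_mem, smul_eq_mul]
        convert hx' using 1
        have h5 : y ^ (q + 1) = y ^ i * y ^ (q + 1 - i) := by
          rw [← pow_add]; congr 1; omega
        rw [h5]
        group)
    convert h3 using 1
    ext x
    simp only [Set.mem_ofPred_eq, Set.mem_union]
    constructor
    · rintro ⟨i, hi, hx⟩
      by_cases hi' : i < q + 1
      · exact Or.inl ⟨i, hi', hx⟩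
      · have : i = q + 1 := by omega
        subst this
        exact Or.inr hx
    · rintro (⟨i, hi, hx⟩ | hx)
      · exact ⟨i, by omega, hx⟩
      · exact ⟨q + 1, by omega, hx⟩

lemma Y.mono {D : Set G} {f v : G} (h : Y H E A D f v) {E' A' : Set G} (hE : E ⊆ E')
    (hA : A ⊆ A') : Y H E' A' D f v := by
  induction h with
  | two f s hs hd => exact Y.two f s (hA hs) hd
  | ext h e s he hs hd ih => exact Y.ext ih e s (hE he) (hA hs) hd
  | join h₁ h₂ e s e' he hs he' hf hd ih₁ ih₂ =>
    exact Y.join ih₁ ih₂ e s e' (hE he) (hA hs) (hE he') hf hd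

end Pool.Agent.Run7.h90.Ham
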